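import Pool.Graph.R_pool_sql_team_seeded_ab47071d.TH128.OM.Inf2

/-!
# How much of the extensions of `1` by `V` an arbitrary object can capture: the version for Lie algebras
-/

set_option autoImplicit false
set_option linter.unusedSectionVars false
set_option linter.unusedVariables false

open Module Matrix

noncomputable section

namespace Pool.Agent.KS6_11

open Pool.Agent.TH128.OM
open Pool.Agent.TH128.KS (Blk)

/-- The conditions on a Lie algebra of triples, for one piece. -/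
structure Gd1 {N R B : Type} [Fintype N] [Fintype B] (P P' : Matrix N N ℂ)
    (v : Matrix N R ℂ) (Q Q' : Matrix B B ℂ)
    (Λ : Submodule ℂ (Matrix N N ℂ × Matrix N R ℂ × Matrix B B ℂ)) : Prop where
  br : ∀ {x x' : Matrix N N ℂ} {y y' : Matrix N R ℂ} {z z' : Matrix B B ℂ}, (x, y, z) ∈ Λ → (x', y', z') ∈ Λ →
    (x * x' - x' * x, x * y' - x' * y, z * z' - z' * z) ∈ Λ
  der : ∀ (δ : Derivation ℚ ℂ ℂ) {x : Matrix N N ℂ} {y : Matrix N R ℂ} {z : Matrix B B ℂ}, (x, y, z) ∈ Λ →
    (x.map δ, y.map δ, z.map δ) ∈ Λ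
  log : ∀ δ : Derivation ℚ ℂ ℂ, (P.map δ * P', v.map δ - P.map δ * P' * v, Q.map δ * Q') ∈ Λ

/-- The numbers `1`, `P`, `v` are linearly independent over the algebraic numbers. -/
def Ind1 {N R : Type} [Fintype N] [Fintype R] (P : Matrix N N ℂ) (v : Matrix N R ℂ) : Prop :=
  ∀ (c : ℂ) (C : Matrix N N ℂ) (D : Matrix N R ℂ), IsAlgebraic ℚ c → (∀ a b, IsAlgebraic ℚ (C a b)) →
    (∀ a i, IsAlgebraic ℚ (D a i)) →
    c + ∑ a, ∑ b, C a b * P a b + ∑ a, ∑ i, D a i * v a i = 0 → C = 0 ∧ D = 0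

/-- the restriction to finitely many columns -/
def cols {N R : Type} (v : Matrix N R ℂ) (K : Finset R) : Matrix N K ℂ := v.submatrix id fun k : K => k.1

section sel

/-- the choice of the coordinates -/
theorem exists_sel {A : Type} [DecidableEq A] (X : Submodule ℂ (A →₀ ℂ)) [Module.Finite ℂ X] (D : Set A) :
    ∃ E : Finset A, (∀ k ∈ E, k ∈ D) ∧ E.card ≤ finrank ℂ X ∧
      ∀ x ∈ X, (∀ k ∈ E, x k = 0) → ∀ k ∈ D, x k = 0 := by
  classical
  have hfree : Module.Free ℂ X := Module.Free.of_divisionRing ℂ X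
  let e := Module.finBasis ℂ X
  let ev : D → (Fin (finrank ℂ X) → ℂ) := fun k i => (e i).1 k.1
  obtain ⟨κ, a, ha, hspan, hli⟩ := exists_linearIndependent' ℂ ev
  have hfin : Finite κ := hli.finite
  have hft : Fintype κ := Fintype.ofFinite κ
  refine ⟨Finset.univ.image fun i => (a i).1, ?_, ?_, ?_⟩
  · intro k hk
    obtain ⟨i, -, rfl⟩ := Finset.mem_image.1 hk
    exact (a i).2
  · refine Finset.card_image_le.trans ?_
    rw [Finset.card_univ]
    have h1 := hli.fintype_card_le_finrank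
    rwa [Module.finrank_fintype_fun_eq_card, Fintype.card_fin] at h1
  · intro x hx h0 k hk
    have hev : ∀ k : D, x k.1 = ∑ i, e.repr ⟨x, hx⟩ i * ev k i := by
      intro k
      have h1 := congrArg (fun w : X => w.1 k.1) (e.sum_repr ⟨x, hx⟩)
      simp only [Submodule.coe_sum, Finsupp.coe_finsetSum, Finset.sum_apply] at h1
      exact h1.symm
    have h1 : ev ⟨k, hk⟩ ∈ Submodule.span ℂ (Set.range (ev ∘ a)) := by
      rw [hspan]
      exact Submodule.subset_span ⟨_, rfl⟩
    have h2 : ∀ f ∈ Submodule.span ℂ (Set.range (ev ∘ a)), ∑ i, e.repr ⟨x, hx⟩ i * f i = 0 := by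
      intro f hf
      induction hf using Submodule.span_induction with
      | mem f hf =>
        obtain ⟨i, rfl⟩ := hf
        have h3 := hev (a i)
        rw [h0 _ (Finset.mem_image.2 ⟨i, Finset.mem_univ _, rfl⟩)] at h3
        exact h3.symm
      | zero => exact Finset.sum_eq_zero fun i _ => by rw [Pi.zero_apply, mul_zero]
      | add f g _ _ hf hg =>
        simp only [Pi.add_apply, mul_add, Finset.sum_add_distrib]
        rw [hf, hg, add_zero]
      | smul c f _ hf =>
        simp only [Pi.smul_apply, smul_eq_mul, mul_left_comm _ c, ← Finset.mul_sum]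
        rw [hf, mul_zero]
    rw [hev ⟨k, hk⟩]
    exact h2 _ h1

end sel

section one

variable {N R B : Type} [Fintype N] [DecidableEq N] [Nonempty N] [DecidableEq R] [Fintype B] [DecidableEq B]
  {P P' : Matrix N N ℂ} {v : Matrix N R ℂ} {Q Q' : Matrix B B ℂ}

/-- the pieces -/
abbrev J0 : Finset Unit := {()}

/-- the piece -/
def j0 : J0 := ⟨(), Finset.mem_singleton_self ()⟩

/-- the projection to the triples -/
def toTr (N B : Type) {R : Type} (K : Finset R) :
    Tr (fun _ : J0 => N) (fun _ : J0 => K) B →ₗ[ℂ] (Matrix N N ℂ × Matrix N K ℂ × Matrix B B ℂ) where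
  toFun p := (p.1 j0, p.2.1 j0, p.2.2)
  map_add' _ _ := rfl
  map_smul' _ _ := rfl

theorem gd_of {K : Finset R} {Λ : Submodule ℂ (Matrix N N ℂ × Matrix N K ℂ × Matrix B B ℂ)}
    (h : Gd1 P P' (cols v K) Q Q' Λ) :
    Gd (fun _ : J0 => P) (fun _ : J0 => P') (fun _ : J0 => cols v K) Q Q' (Λ.comap (toTr N B K)) where
  br := fun h1 h2 => h.br h1 h2
  der := fun δ _ _ _ h1 => h.der δ h1
  log := fun δ => h.log δ

theorem LK_le {K : Finset R} {Λ : Submodule ℂ (Matrix N N ℂ × Matrix N K ℂ × Matrix B B ℂ)}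
    (h : Gd1 P P' (cols v K) Q Q' Λ) :
    LK (fun _ : Unit => P) (fun _ => P') (fun _ => v) Q Q' J0 (fun _ => K) ≤ Λ.comap (toTr N B K) :=
  Lm_le (gd_of h)

theorem ind_of1 (hI : ∀ K : Finset R, Ind1 P (cols v K)) (J : Finset Unit) (K : Unit → Finset R) :
    Ind (fun j : J => (fun _ : Unit => P) j) (vK (fun _ : Unit => v) J K) := by
  intro c C D hc hC hD h0
  by_cases hJ : () ∈ J
  · have hu : ∀ j : J, j = ⟨(), hJ⟩ := fun j => Subtype.ext rfl
    have huniv : (Finset.univ : Finset J) = {⟨(), hJ⟩} := by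
      ext j
      simp [hu j]
    rw [huniv, Finset.sum_singleton, Finset.sum_singleton] at h0
    obtain ⟨h1, h2⟩ := hI (K ()) c (C ⟨(), hJ⟩) (D ⟨(), hJ⟩) hc (hC _) (hD _) h0
    constructor
    · funext j
      rw [hu j]
      exact h1
    · funext j
      obtain ⟨j, hj⟩ := j
      exact h2
  · have hE : ∀ j : J, False := fun j => hJ (by
      obtain ⟨j, hj⟩ := j
      exact hj)
    exact ⟨funext fun j => (hE j).elim, funext fun j => (hE j).elim⟩

/-- **The capacity of an arbitrary object.** -/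
theorem cap (hP : P * P' = 1) (hP' : P' * P = 1) {t : ℂ} (ht : ¬ IsAlgebraic ℚ t)
    (hdet : ∃ a, IsAlgebraic ℚ a ∧ P.det ^ 2 = a * t ^ Fintype.card N)
    (hI : ∀ K : Finset R, Ind1 P (cols v K)) (Q Q' : Matrix B B ℂ) :
    ∃ X : Submodule ℂ (R →₀ ℂ), Module.Finite ℂ X ∧
      4 * (Fintype.card N * finrank ℂ X) ≤ Fintype.card B ^ 2 ∧
      ∀ (K : Finset R) (Λ : Submodule ℂ (Matrix N N ℂ × Matrix N K ℂ × Matrix B B ℂ)),
        Gd1 P P' (cols v K) Q Q' Λ → (∃ y z, ((1 : Matrix N N ℂ), y, z) ∈ Λ) ∧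
        ∀ y : Matrix N K ℂ, (∀ a, ∀ x ∈ X, (∀ k, k ∉ K → x k = 0) → ∑ k : K, x k.1 * y a k = 0) →
          ((0 : Matrix N N ℂ), y, (0 : Matrix B B ℂ)) ∈ Λ := by
  classical
  have hQb : Blk (fun _ : B => ()) Q := fun _ _ h => (h rfl).elim
  have hQb' : Blk (fun _ : B => ()) Q' := fun _ _ h => (h rfl).elim
  have hI' := ind_of1 hI
  choose Jf Kf hif hf using exists_max (P := fun _ : Unit => P) (P' := fun _ => P') (v := fun _ => v)
    (Q := Q) (Q' := Q') (fun _ => hP) (fun _ => hP') hQb hQb' hI'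
  have hJ : ∀ (J : Finset Unit), () ∈ J → J = J0 := fun J hJ => by
    ext i
    constructor
    · intro _
      exact Finset.mem_singleton_self _
    · intro _
      exact hJ
  have hcard : Fintype.card {p : B × B // (fun _ : B => ()) p.1 = (fun _ : B => ()) p.2} = Fintype.card B ^ 2 := by
    rw [Fintype.card_congr (Equiv.subtypeUnivEquiv fun _ => rfl), Fintype.card_prod, sq]
  refine ⟨XK (fun _ : Unit => P) (fun _ => P') (fun _ => v) Q Q' (Jf ()) (Kf ()) ⟨(), hif ()⟩, Xs_finite, ?_, ?_⟩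
  · have h1 := bd_T (P := fun _ : Unit => P) (P' := fun _ => P') (v := fun _ => v)
      (Q := Q) (Q' := Q') (deg := fun _ : B => ()) (fun _ => hP) (fun _ => hP') hQb hQb' (hI' (Jf ()) (Kf ()))
      (T := {⟨(), hif ()⟩}) ht (fun j _ => hdet)
    rw [Finset.sum_singleton] at h1
    have h2 : 4 * (Fintype.card N * finrank ℂ (XK (fun _ : Unit => P) (fun _ => P') (fun _ => v) Q Q' (Jf ()) (Kf ())
        ⟨(), hif ()⟩)) ≤ 4 * (Fintype.card N * finrank ℂ ((Kf () () → ℂ) ⧸ WK (fun _ : Unit => P) (fun _ => P')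
          (fun _ => v) Q Q' (Jf ()) (Kf ()) ⟨(), hif ()⟩)) :=
      Nat.mul_le_mul_left _ (Nat.mul_le_mul_left _ finrank_Xs)
    refine h2.trans (h1.trans (le_of_eq ?_))
    rw [← hcard]
  · intro K Λ hΛ
    have hle := LK_le hΛ
    have hgd : Gd (fun j : J0 => (fun _ : Unit => P) j) (fun j : J0 => (fun _ : Unit => P') j)
        (vK (fun _ : Unit => v) J0 (fun _ => K)) Q Q' (LK (fun _ : Unit => P) (fun _ => P') (fun _ => v) Q Q' J0
          (fun _ => K)) := gd_Lm _ _ _ _ _
    constructor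
    · obtain ⟨δ, hδ⟩ := Pool.Agent.TH119.DR.exists_deriv ht
      have ht0 : t ≠ 0 := by
        rintro rfl
        exact ht isAlgebraic_zero
      have hc0 : δ t / (2 * t) ≠ 0 := div_ne_zero hδ (mul_ne_zero two_ne_zero ht0)
      obtain ⟨_, ⟨⟨e, ye, ze⟩, hpe, rfl⟩, -, hej⟩ := Lx_cen (fun _ => hP) (fun _ => hP') hgd (hI' _ _) δ
        (δ t / (2 * t))⁻¹
      have he : e j0 = 1 := by
        obtain ⟨a, ha, haj⟩ := hdet
        have h1 : e j0 = _ := hej j0
        rw [h1, log_trace hP ha Fintype.card_ne_zero haj δ,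
          mul_div_cancel_right₀ _ (Nat.cast_ne_zero.2 Fintype.card_ne_zero), inv_mul_cancel₀ hc0, one_smul]
      have h2 : (e j0, ye j0, ze) ∈ Λ := hle hpe
      rw [he] at h2
      exact ⟨_, _, h2⟩
    · intro y hy
      have h1 : (fun _ : J0 => y) ∈ Y0 (LK (fun _ : Unit => P) (fun _ => P') (fun _ => v) Q Q' J0 (fun _ => K)) := by
        refine mem_of_Rw fun j a => ?_
        refine mem_of_Ann (W := WK (fun _ : Unit => P) (fun _ => P') (fun _ => v) Q Q' J0 (fun _ => K) j)
          fun r hr => ?_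
        have h1 : emb K r ∈ XK (fun _ : Unit => P) (fun _ => P') (fun _ => v) Q Q' J0 (fun _ => K) j := emb_mem hr
        have hX1 : XK (fun _ : Unit => P) (fun _ => P') (fun _ => v) Q Q' J0 (fun _ => K) j ≤
            XK (fun _ : Unit => P) (fun _ => P') (fun _ => v) Q Q' (Jf ()) (Kf ()) ⟨(), hif ()⟩ := by
          rw [hf () (Jf () ∪ J0) (fun a => Kf () a ∪ K) Finset.subset_union_left
            (fun a => Finset.subset_union_left)]
          exact XK_mono (K' := fun _ => K) Finset.subset_union_right (fun a => Finset.subset_union_right) j.2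
        have h2 := hy a _ (hX1 h1) (fun k hk => by rw [emb_apply, dif_neg hk])
        have h3 : r ⬝ᵥ y a = ∑ k : K, emb K r k.1 * y a k := by
          rw [dotProduct]
          refine Finset.sum_congr rfl fun k _ => ?_
          rw [emb_apply, dif_pos k.2]
        rw [h3]
        exact h2
      have h2 := hle (mem_Y0.1 h1)
      exact h2

end one

end Pool.Agent.KS6_11
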