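import Pool.Graph.R_pool_sql_team_seeded_64922ed1.X306.CV.Main
import Pool.Graph.R_pool_sql_team_seeded_64922ed1.X306.MT.Clo

/-!
# The right Lie algebra, and conjugation by exponentials
-/

set_option autoImplicit false
set_option linter.unusedSectionVars false
set_option linter.unusedVariables false

open Module Matrix

noncomputable section

namespace Pool.Agent.KS6_11

open Pool.Agent.W245.EB Pool.Agent.TH127.PT Pool.Agent.TH119.DR Pool.Agent.Y123.ST
open Pool.Agent.X306.RL (LL_br derD)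
open Pool.Agent.X306.MT Pool.Agent.X306.CV
open Pool.Agent.X306.MZ (InK)

section right

variable {N : Type} [Fintype N] [DecidableEq N] {K : Subfield ℂ} {T : Set (Matrix N N ℂ)}

theorem RR_br (hT : IsSubtorsor K T) {c : Matrix N N ℂ} (hc : c ∈ T) {w w' : Matrix N N ℂ} (hw : fl w ∈ RR T)
    (hw' : fl w' ∈ RR T) : fl (w * w' - w' * w) ∈ RR T := by
  have h1 := LL_br (conj_mem' hT hc hw) (conj_mem' hT hc hw')
  have h2 := conj_mem hT hc h1
  refine (congrArg (fun X => fl X ∈ RR T) ?_).mp h2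
  have e : ∀ x y : Matrix N N ℂ, c⁻¹ * (c * x * c⁻¹ * (c * y * c⁻¹)) * c = x * y := by
    intro x y
    have h3 : c⁻¹ * (c * x * c⁻¹ * (c * y * c⁻¹)) * c = (c⁻¹ * c) * x * (c⁻¹ * c) * y * (c⁻¹ * c) := by
      simp only [Matrix.mul_assoc]
    rw [h3, inv_mul' hT hc, Matrix.one_mul, Matrix.mul_one, Matrix.mul_one]
  rw [Matrix.mul_sub, Matrix.sub_mul, e, e]

theorem RR_der (hT : IsSubtorsor K T) (hK : ∀ x ∈ K, IsAlgebraic ℚ x) (δ : Derivation ℚ ℂ ℂ) {w : Matrix N N ℂ}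
    (hw : fl w ∈ RR T) : fl (w.map δ) ∈ RR T :=
  (RR_def hT).map (derK δ K hK) hw

theorem RR_log (hT : IsSubtorsor K T) (hK : ∀ x ∈ K, IsAlgebraic ℚ x) (δ : Derivation ℚ ℂ ℂ) {c : Matrix N N ℂ}
    (hc : c ∈ T) : fl (c⁻¹ * c.map δ) ∈ RR T := by
  have h1 := logder_mem hT (derD δ K hK) hc
  have h2 := conj_mem hT hc h1
  refine (congrArg (fun X => fl X ∈ RR T) ?_).mp h2
  have h3 : c.map (derD δ K hK) = c.map δ := rfl
  rw [h3, Matrix.mul_assoc, Matrix.mul_assoc, inv_mul' hT hc, Matrix.mul_one]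

end right

section nor

variable {B S : Type} [Fintype B] [DecidableEq B] {d : B → ℕ} {N : S → Matrix B B ℂ} {C : Matrix B B ℂ}

/-- the normalizer -/
def No (N : S → Matrix B B ℂ) : Submodule ℂ (Matrix B B ℂ) where
  carrier := {Y | ∀ x ∈ nn N, Y * x - x * Y ∈ nn N}
  zero_mem' := fun x hx => by
    rw [Matrix.mul_zero, Matrix.zero_mul, sub_zero]
    exact (nn N).zero_mem
  add_mem' := fun {Y Y'} hY hY' x hx => by
    refine (congrArg (· ∈ nn N) ?_).mp ((nn N).add_mem (hY x hx) (hY' x hx))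
    rw [Matrix.mul_add, Matrix.add_mul]
    abel
  smul_mem' := fun a Y hY x hx => by
    refine (congrArg (· ∈ nn N) ?_).mp ((nn N).smul_mem a (hY x hx))
    rw [Matrix.mul_smul, Matrix.smul_mul, smul_sub]

theorem No_br {X Y : Matrix B B ℂ} (hX : X ∈ No N) (hY : Y ∈ No N) : X * Y - Y * X ∈ No N := by
  intro M hM
  have h1 := (nn N).sub_mem (hX _ (hY M hM)) (hY _ (hX M hM))
  refine (congrArg (· ∈ nn N) ?_).mp h1
  simp only [Matrix.mul_sub, Matrix.sub_mul, Matrix.mul_assoc]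
  abel

theorem No_der (δ : Derivation ℚ ℂ ℂ) (hA : ∀ s b b', δ (N s b b') = 0) {Y : Matrix B B ℂ} (hY : Y ∈ No N) :
    Y.map δ ∈ No N := by
  intro x hx
  have h1 := nn_der δ hA (hY x hx)
  have h2 := hY _ (nn_der δ hA hx)
  have h3 := (nn N).sub_mem h1 h2
  refine (congrArg (· ∈ nn N) ?_).mp h3
  have e : ∀ X Y : Matrix B B ℂ, (X - Y).map δ = X.map δ - Y.map δ := by
    intro X Y
    ext b b'
    simp only [Matrix.map_apply, Matrix.sub_apply, map_sub]
  rw [e, map_mul_D, map_mul_D]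
  abel

/-- the logarithmic derivative normalizes the Lie algebra -/
theorem No_log (hC : Bi d C) (δ : Derivation ℚ ℂ ℂ) (hA : ∀ s b b', δ (N s b b') = 0) {K : Subfield ℂ}
    (hK : ∀ x ∈ K, IsAlgebraic ℚ x) (hB : DefK K C N) : C⁻¹ * C.map δ ∈ No N := by
  intro x hx
  have h1 := hB (C * x * C⁻¹) (conj_nB hC hx)
  have key : ∀ M ∈ Submodule.span ℂ {M' : Matrix B B ℂ | M' ∈ nB C N ∧ InK K M'},
      (C⁻¹ * C.map δ) * (C⁻¹ * M * C) - (C⁻¹ * M * C) * (C⁻¹ * C.map δ) ∈ nn N := by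
    intro M hM
    induction hM using Submodule.span_induction with
    | mem M hM =>
      obtain ⟨h2, h3⟩ := hM
      set x : Matrix B B ℂ := C⁻¹ * M * C with hxd
      have h4 : M * C = C * x := by
        rw [hxd, ← Matrix.mul_assoc, ← Matrix.mul_assoc, hC.mul_inv, Matrix.one_mul]
      have h5 : (M * C).map δ = (C * x).map δ := by rw [h4]
      rw [map_mul_D, map_mul_D] at h5
      have h6 : M.map δ = 0 := by
        ext b b'
        exact deriv_alg δ (hK _ (h3 b b'))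
      rw [h6, Matrix.zero_mul, zero_add] at h5
      have h7 : -(x.map δ) ∈ nn N := (nn N).neg_mem (nn_der δ hA h2)
      refine (congrArg (· ∈ nn N) ?_).mp h7
      have h8 : x * (C⁻¹ * C.map δ) = C⁻¹ * (M * C.map δ) := by
        rw [hxd]
        have h9 : C⁻¹ * M * C * (C⁻¹ * C.map δ) = C⁻¹ * M * (C * C⁻¹) * C.map δ := by
          simp only [Matrix.mul_assoc]
        rw [h9, hC.mul_inv, Matrix.mul_one, Matrix.mul_assoc]
      rw [h8, h5, Matrix.mul_add, ← Matrix.mul_assoc C⁻¹ C, hC.inv_mul, Matrix.one_mul, ← Matrix.mul_assoc C⁻¹ _ x]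
      abel
    | zero =>
      simp only [Matrix.mul_zero, Matrix.zero_mul, sub_zero]
      exact (nn N).zero_mem
    | add M M' _ _ h2 h3 =>
      refine (congrArg (· ∈ nn N) ?_).mp ((nn N).add_mem h2 h3)
      simp only [Matrix.mul_add, Matrix.add_mul]
      abel
    | smul a M _ h2 =>
      refine (congrArg (· ∈ nn N) ?_).mp ((nn N).smul_mem a h2)
      simp only [Matrix.mul_smul, Matrix.smul_mul, smul_sub]
  have h2 := key _ h1
  have h3 : C⁻¹ * (C * x * C⁻¹) * C = x := by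
    have h4 : C⁻¹ * (C * x * C⁻¹) * C = (C⁻¹ * C) * x * (C⁻¹ * C) := by
      simp only [Matrix.mul_assoc]
    rw [h4, hC.inv_mul, Matrix.one_mul, Matrix.mul_one]
  rwa [h3] at h2

end nor

section conj

variable {B S : Type} [Fintype B] [DecidableEq B] {d : B → ℕ} {N : S → Matrix B B ℂ}

/-- the terms of the conjugation by an exponential -/
def cj (X Y : Matrix B B ℂ) (k : ℕ) : Matrix B B ℂ :=
  ∑ p ∈ Finset.HasAntidiagonal.antidiagonal k, (ee (-X) p.1 * Y) * ee X p.2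

theorem cj_zero (X Y : Matrix B B ℂ) : cj X Y 0 = Y := by
  unfold cj
  rw [Finset.Nat.antidiagonal_zero, Finset.sum_singleton, ee_zero, ee_zero, Matrix.mul_one, Matrix.one_mul]

theorem cj_succ (X Y : Matrix B B ℂ) (k : ℕ) :
    ((k + 1 : ℕ) : ℂ) • cj X Y (k + 1) = cj X Y k * X - X * cj X Y k := by
  have h1 := split_sum (fun k => ee (-X) k * Y) (ee X) (fun k => (-X) * ee (-X) k * Y)
    (fun k => X * ee X k) (fun k => by
      rw [← ee_succ, Matrix.smul_mul]) (ee_succ X) k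
  unfold cj
  rw [h1]
  simp only [Finset.mul_sum, Finset.sum_mul]
  have h2 : ∑ p ∈ Finset.HasAntidiagonal.antidiagonal k, ee (-X) p.1 * Y * (X * ee X p.2) =
      ∑ p ∈ Finset.HasAntidiagonal.antidiagonal k, ee (-X) p.1 * Y * ee X p.2 * X := by
    refine Finset.sum_congr rfl fun p _ => ?_
    rw [ee_comm X, Matrix.mul_assoc, Matrix.mul_assoc, Matrix.mul_assoc]
  have h3 : ∑ p ∈ Finset.HasAntidiagonal.antidiagonal k, -X * ee (-X) p.1 * Y * ee X p.2 =
      -∑ p ∈ Finset.HasAntidiagonal.antidiagonal k, X * (ee (-X) p.1 * Y * ee X p.2) := by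
    rw [← Finset.sum_neg_distrib]
    refine Finset.sum_congr rfl fun p _ => ?_
    simp only [Matrix.neg_mul, Matrix.mul_assoc]
  rw [h2, h3]
  abel

theorem cj_one (X Y : Matrix B B ℂ) : cj X Y 1 = Y * X - X * Y := by
  have h1 := cj_succ X Y 0
  rw [cj_zero] at h1
  simpa using h1

theorem cj_mem {X Y : Matrix B B ℂ} (hX : X ∈ nn N) (hY : Y ∈ No N) (k : ℕ) : cj X Y (k + 1) ∈ nn N := by
  induction k with
  | zero =>
    rw [zero_add, cj_one]
    exact hY X hX
  | succ k ih =>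
    have h1 := cj_succ X Y (k + 1)
    have h2 := nn_br ih hX
    rw [← h1] at h2
    have h3 : ((k + 1 + 1 : ℕ) : ℂ) ≠ 0 := Nat.cast_ne_zero.2 (Nat.succ_ne_zero _)
    have h4 := (nn N).smul_mem ((k + 1 + 1 : ℕ) : ℂ)⁻¹ h2
    rwa [smul_smul, inv_mul_cancel₀ h3, one_smul] at h4

theorem cj_two (hN : Deg1 d N) {X Y : Matrix B B ℂ} (hX : X ∈ nn N) (hY : Y ∈ No N) (k : ℕ) :
    cj X Y (k + 2) ∈ Ge d 2 := by
  have h1 := cj_succ X Y (k + 1)
  have h2 := Ge_br (nn_Ge hN (cj_mem hX hY k)) (nn_Ge hN hX)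
  rw [← h1] at h2
  have h3 : ((k + 1 + 1 : ℕ) : ℂ) ≠ 0 := Nat.cast_ne_zero.2 (Nat.succ_ne_zero _)
  have h4 := (Ge d 2).smul_mem ((k + 1 + 1 : ℕ) : ℂ)⁻¹ h2
  rwa [smul_smul, inv_mul_cancel₀ h3, one_smul] at h4

theorem ex_cj (hN : Deg1 d N) {X Y : Matrix B B ℂ} (hX : X ∈ nn N) (hY : Y ∈ No N) :
    ex d (-X) * Y * ex d X - Y ∈ nn N ∧ ex d (-X) * Y * ex d X - Y - (Y * X - X * Y) ∈ Ge d 2 := by
  have hX1 := nn_Ge hN hX
  have h1 : ex d (-X) * Y * ex d X = ∑ k ∈ Finset.range (2 * top d), cj X Y k := by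
    unfold ex cj
    rw [Finset.sum_mul, sum_conv (fun k hk => by rw [ee_top ((Ge d 1).neg_mem hX1) hk, Matrix.zero_mul])
      (fun k hk => ee_top hX1 hk)]
  have h0 : 0 < top d := Nat.succ_pos _
  have h2 : 2 * top d = (2 * top d - 2) + 1 + 1 := by omega
  have h3 : ex d (-X) * Y * ex d X - Y = ∑ k ∈ Finset.range (2 * top d - 2 + 1), cj X Y (k + 1) := by
    rw [h1, h2, Finset.sum_range_succ', cj_zero, add_sub_cancel_right]
    rfl
  constructor
  · rw [h3]
    exact (nn N).sum_mem fun k _ => cj_mem hX hY k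
  · rw [h3, Finset.sum_range_succ', zero_add, cj_one, add_sub_cancel_right]
    exact (Ge d 2).sum_mem fun k _ => cj_two hN hX hY k

theorem ex_neg_mul {X : Matrix B B ℂ} (hX : X ∈ Ge d 1) : ex d (-X) * ex d X = 1 := by
  have h := ex_mul_neg ((Ge d 1).neg_mem hX)
  rwa [neg_neg] at h

/-- the logarithmic derivative of an exponential from the left -/
theorem ex_der' (hN : Deg1 d N) (D : Derivation ℚ ℂ ℂ) {X : Matrix B B ℂ} (hX : X ∈ nn N) (hDX : X.map D ∈ nn N) :
    ex d (-X) * (ex d X).map D ∈ nn N ∧ ex d (-X) * (ex d X).map D - X.map D ∈ Ge d 2 := by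
  have hneg : (-X).map D = -(X.map D) := by
    ext b b'
    exact map_neg D _
  obtain ⟨h1, h2⟩ := ex_der hN D ((nn N).neg_mem hX) (by
    rw [hneg]
    exact (nn N).neg_mem hDX)
  rw [neg_neg] at h1 h2
  have h3 : (ex d (-X)).map D * ex d X + ex d (-X) * (ex d X).map D = 0 := by
    rw [← map_mul_D, ex_neg_mul (nn_Ge hN hX), map_one_D]
  have h4 : ex d (-X) * (ex d X).map D = -((ex d (-X)).map D * ex d X) := by
    rw [eq_neg_iff_add_eq_zero, add_comm]
    exact h3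
  constructor
  · rw [h4]
    exact (nn N).neg_mem h1
  · rw [h4]
    refine (congrArg (· ∈ Ge d 2) ?_).mp ((Ge d 2).neg_mem h2)
    rw [hneg]
    abel

end conj

section rt

variable {M B R : Type} [Fintype M] [DecidableEq M] [Fintype B] [DecidableEq B] [Fintype R] [DecidableEq R]

/-- the index set -/
abbrev Ix (M B R : Type) : Type := M ⊕ (B ⊕ (B × R))

/-- the elements -/
def rt (Z : Matrix M M ℂ) (Y : Matrix B B ℂ) (V : R → Matrix B B ℂ) : Matrix (Ix M B R) (Ix M B R) ℂ :=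
  fromBlocks Z 0 0 (qt Y V)

theorem rt_zero : rt (0 : Matrix M M ℂ) (0 : Matrix B B ℂ) (0 : R → Matrix B B ℂ) = 0 := by
  unfold rt
  rw [qt_zero, fromBlocks_zero]

theorem rt_add (Z Z' : Matrix M M ℂ) (Y Y' : Matrix B B ℂ) (V V' : R → Matrix B B ℂ) :
    rt (Z + Z') (Y + Y') (V + V') = rt Z Y V + rt Z' Y' V' := by
  unfold rt
  rw [fromBlocks_add, add_zero, add_zero, ← qt_add]

theorem rt_smul (a : ℂ) (Z : Matrix M M ℂ) (Y : Matrix B B ℂ) (V : R → Matrix B B ℂ) :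
    rt (a • Z) (a • Y) (a • V) = a • rt Z Y V := by
  unfold rt
  rw [fromBlocks_smul, smul_zero, smul_zero, ← qt_smul]

theorem rt_br (Z Z' : Matrix M M ℂ) (Y Y' : Matrix B B ℂ) (V V' : R → Matrix B B ℂ) :
    rt Z Y V * rt Z' Y' V' - rt Z' Y' V' * rt Z Y V =
    rt (Z * Z' - Z' * Z) (Y * Y' - Y' * Y)
      (fun r => (Y * V' r - V' r * Y) - (Y' * V r - V r * Y') + (V r * V' r - V' r * V r)) := by
  unfold rt
  rw [fromBlocks_multiply, fromBlocks_multiply, sub_eq_add_neg, fromBlocks_neg, fromBlocks_add]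
  simp only [Matrix.mul_zero, Matrix.zero_mul, add_zero, zero_add, neg_zero]
  rw [← qt_br]
  simp only [← sub_eq_add_neg]

theorem rt_map (D : Derivation ℚ ℂ ℂ) (Z : Matrix M M ℂ) (Y : Matrix B B ℂ) (V : R → Matrix B B ℂ) :
    (rt Z Y V).map D = rt (Z.map D) (Y.map D) (fun r => (V r).map D) := by
  have hz : ∀ (α β : Type), (0 : Matrix α β ℂ).map D = 0 := by
    intro α β
    ext b b'
    exact map_zero D
  unfold rt qt
  rw [fromBlocks_map, fromBlocks_map, hz, hz, hz, hz, blockDiagonal_map _ _ (map_zero D)]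
  congr 2
  congr 1
  funext r
  exact map_add_D D _ _

end rt

end Pool.Agent.KS6_11
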