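import Pool.Agent.KS6_11.Cap
import Pool.Agent.KS6_11.Rt

/-!
# Unipotent objects relative to an arbitrary object
-/

set_option autoImplicit false
set_option linter.unusedSectionVars false
set_option linter.unusedVariables false

open Module Matrix

noncomputable section

namespace Pool.Agent.KS6_11

open Pool.Agent.W245.EB Pool.Agent.TH127.PT Pool.Agent.TH119.DR Pool.Agent.Y123.ST
open Pool.Agent.X306.RL (LL_br derD)
open Pool.Agent.X306.MT Pool.Agent.X306.CV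
open Pool.Agent.X306.MZ (InK)

section pr

variable {B : Type} [Fintype B] [DecidableEq B] {d : B → ℕ}

theorem pr0_mul {Y Y' : Matrix B B ℂ} (hY : Y ∈ Ge d 0) (hY' : Y' ∈ Ge d 0) : pr d 0 (Y * Y') = pr d 0 Y * pr d 0 Y' := by
  ext b b'
  rw [pr_apply, Matrix.mul_apply, Matrix.mul_apply]
  by_cases h : d b' = d b + 0
  · rw [if_pos h]
    refine Finset.sum_congr rfl fun c _ => ?_
    rw [pr_apply, pr_apply]
    rcases lt_trichotomy (d c) (d b) with h5 | h5 | h5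
    · rw [hY b c (by omega), if_neg (by omega), zero_mul, zero_mul]
    · rw [if_pos (by omega), if_pos (by omega)]
    · rw [hY' c b' (by omega), if_neg (by omega), mul_zero, zero_mul]
  · rw [if_neg h]
    symm
    refine Finset.sum_eq_zero fun c _ => ?_
    rw [pr_apply, pr_apply]
    by_cases h1 : d c = d b + 0
    · rw [if_neg (c := d b' = d c + 0) (by omega), mul_zero]
    · rw [if_neg h1, zero_mul]

theorem pr1_mul {Y Y' : Matrix B B ℂ} (hY : Y ∈ Ge d 0) (hY' : Y' ∈ Ge d 0) :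
    pr d 1 (Y * Y') = pr d 0 Y * pr d 1 Y' + pr d 1 Y * pr d 0 Y' := by
  ext b b'
  rw [Matrix.add_apply, pr_apply, Matrix.mul_apply, Matrix.mul_apply, Matrix.mul_apply, ← Finset.sum_add_distrib]
  by_cases h : d b' = d b + 1
  · rw [if_pos h]
    refine Finset.sum_congr rfl fun c _ => ?_
    simp only [pr_apply]
    rcases lt_trichotomy (d c) (d b) with h5 | h5 | h5
    · rw [hY b c (by omega), if_neg (by omega), if_neg (by omega)]
      simp
    · rw [if_pos (c := d c = d b + 0) (by omega), if_pos (c := d b' = d c + 1) (by omega),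
        if_neg (c := d c = d b + 1) (by omega)]
      simp
    · rw [if_neg (c := d c = d b + 0) (by omega)]
      by_cases h6 : d c = d b + 1
      · rw [if_pos h6, if_pos (c := d b' = d c + 0) (by omega)]
        simp
      · rw [if_neg h6, hY' c b' (by omega)]
        simp
  · rw [if_neg h]
    symm
    refine Finset.sum_eq_zero fun c _ => ?_
    simp only [pr_apply]
    by_cases h1 : d c = d b + 0
    · rw [if_neg (c := d b' = d c + 1) (by omega), if_neg (c := d c = d b + 1) (by omega)]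
      simp
    · rw [if_neg h1]
      by_cases h2 : d c = d b + 1
      · rw [if_neg (c := d b' = d c + 0) (by omega)]
        simp
      · rw [if_neg h2]
        simp

theorem pr_map (δ : Derivation ℚ ℂ ℂ) (k : ℕ) (Y : Matrix B B ℂ) : pr d k (Y.map δ) = (pr d k Y).map δ := by
  ext b b'
  rw [Matrix.map_apply, pr_apply, pr_apply]
  split_ifs
  · rfl
  · exact (map_zero δ).symm

theorem map_Ge' (δ : Derivation ℚ ℂ ℂ) {k : ℕ} {X : Matrix B B ℂ} (hX : X ∈ Ge d k) : X.map δ ∈ Ge d k := by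
  intro b b' h
  rw [Matrix.map_apply, hX b b' h, map_zero]

theorem map_sub_D (D : Derivation ℚ ℂ ℂ) (x y : Matrix B B ℂ) : (x - y).map D = x.map D - y.map D := by
  ext b b'
  simp only [Matrix.map_apply, Matrix.sub_apply, map_sub]

variable {I : Type} [Fintype I]

theorem nbv_map (δ : Derivation ℚ ℂ ℂ) {N : I → Matrix B B ℂ} (hN : ∀ i b b', δ (N i b b') = 0) (w : I → ℂ) :
    (nbv N w).map δ = nbv N fun i => δ (w i) := by
  ext b b'
  unfold nbv
  rw [Matrix.map_apply, Matrix.sum_apply, Matrix.sum_apply, map_sum]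
  refine Finset.sum_congr rfl fun i _ => ?_
  rw [Matrix.smul_apply, Matrix.smul_apply, smul_eq_mul, smul_eq_mul, Derivation.leibniz, hN, smul_zero, zero_add,
    smul_eq_mul, mul_comm]

end pr

variable {M B R A S β Ω : Type} [Fintype M] [DecidableEq M] [Fintype B] [DecidableEq B] [Fintype R] [DecidableEq R]
  [Fintype A] [DecidableEq A] [Fintype S] [DecidableEq S] [Fintype β] [DecidableEq β] {d : B → ℕ}

/-- The action of the component of degree zero on the generators. -/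
structure Gs (d : B → ℕ) (N : A × S → Matrix B B ℂ) (Q : A × β → Matrix B B ℂ)
    (𝓖 : Submodule ℂ (Matrix B B ℂ × Matrix A A ℂ)) : Prop where
  gr : ∀ p ∈ 𝓖, p.1 ∈ Gr d 0
  br : ∀ p ∈ 𝓖, ∀ q ∈ 𝓖, (p.1 * q.1 - q.1 * p.1, p.2 * q.2 - q.2 * p.2) ∈ 𝓖
  der : ∀ δ : Derivation ℚ ℂ ℂ, ∀ p ∈ 𝓖, (p.1.map δ, p.2.map δ) ∈ 𝓖
  one : (Dl d, 1) ∈ 𝓖
  inj : ∀ Y, (Y, 0) ∈ 𝓖 → Y = 0
  cN : ∀ p ∈ 𝓖, ∀ a s, p.1 * N (a, s) - N (a, s) * p.1 = -∑ b, p.2 a b • N (b, s)
  cQ : ∀ p ∈ 𝓖, ∀ a s, p.1 * Q (a, s) - Q (a, s) * p.1 = -∑ b, p.2 a b • Q (b, s)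

/-- The element of the Lie algebra with given leading parts (transposed). -/
structure El (T : Set (Matrix (Ix M B R) (Ix M B R) ℂ)) (d : B → ℕ) (N : A × S → Matrix B B ℂ)
    (Q : A × β → Matrix B B ℂ) (𝓖 : Submodule ℂ (Matrix B B ℂ × Matrix A A ℂ)) (i1 : β → Ω) (i2 : R → S → Ω)
    (x : Matrix A A ℂ) (y : Matrix A Ω ℂ) (z : Matrix M M ℂ) (Y : Matrix B B ℂ) (V : R → Matrix B B ℂ) : Prop where
  mem : fl (rt zᵀ Y V) ∈ RR T
  nor : Y ∈ No N
  low : Y ∈ Ge d 0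
  zer : (pr d 0 Y, xᵀ) ∈ 𝓖
  one : pr d 1 Y = nbv Q (fun p => y p.1 (i1 p.2))
  bet : ∀ r, V r ∈ nn N
  two : ∀ r, V r - nbv N (fun p => y p.1 (i2 r p.2)) ∈ Ge d 2

variable {N : A × S → Matrix B B ℂ} {Q : A × β → Matrix B B ℂ} {𝓖 : Submodule ℂ (Matrix B B ℂ × Matrix A A ℂ)}
  {i1 : β → Ω} {i2 : R → S → Ω} {T : Set (Matrix (Ix M B R) (Ix M B R) ℂ)}

theorem com_nbv {I : Type} [Fintype I] {N : A × I → Matrix B B ℂ} {Y : Matrix B B ℂ} {X : Matrix A A ℂ}
    (h : ∀ a s, Y * N (a, s) - N (a, s) * Y = -∑ b, X a b • N (b, s)) (y : Matrix A Ω ℂ) (i : I → Ω) :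
    Y * nbv N (fun p => y p.1 (i p.2)) - nbv N (fun p => y p.1 (i p.2)) * Y =
      -nbv N (fun p => (Xᵀ * y) p.1 (i p.2)) := by
  unfold nbv
  simp only [Fintype.sum_prod_type, Finset.mul_sum, Finset.sum_mul, Matrix.mul_smul, Matrix.smul_mul]
  rw [← Finset.sum_sub_distrib]
  have h1 : ∀ a, ∑ s, y a (i s) • (Y * N (a, s)) - ∑ s, y a (i s) • (N (a, s) * Y) =
      -∑ b, ∑ s, (X a b * y a (i s)) • N (b, s) := by
    intro a
    rw [← Finset.sum_sub_distrib, Finset.sum_comm, ← Finset.sum_neg_distrib]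
    refine Finset.sum_congr rfl fun s _ => ?_
    rw [← smul_sub, h, smul_neg, Finset.smul_sum]
    congr 1
    exact Finset.sum_congr rfl fun b _ => by rw [smul_smul, mul_comm]
  simp only [h1]
  rw [Finset.sum_neg_distrib, Finset.sum_comm]
  congr 1
  refine Finset.sum_congr rfl fun b _ => ?_
  rw [Finset.sum_comm]
  refine Finset.sum_congr rfl fun s _ => ?_
  rw [Matrix.mul_apply, ← Finset.sum_smul]
  rfl

theorem El.zero : El T d N Q 𝓖 i1 i2 0 0 0 0 0 where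
  mem := by
    rw [Matrix.transpose_zero, rt_zero, fl_zero]
    exact (RR T).zero_mem
  nor := (No N).zero_mem
  low := (Ge d 0).zero_mem
  zer := by
    rw [map_zero, Matrix.transpose_zero]
    exact 𝓖.zero_mem
  one := by
    rw [map_zero]
    exact (nbv_zero Q).symm
  bet := fun r => (nn N).zero_mem
  two := fun r => by
    have h : nbv N (fun p => (0 : Matrix A Ω ℂ) p.1 (i2 r p.2)) = 0 := nbv_zero N
    rw [h, sub_zero]
    exact (Ge d 2).zero_mem

variable {x x' : Matrix A A ℂ} {y y' : Matrix A Ω ℂ} {z z' : Matrix M M ℂ} {Y Y' : Matrix B B ℂ}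
  {V V' : R → Matrix B B ℂ}

theorem El.add (h : El T d N Q 𝓖 i1 i2 x y z Y V) (h' : El T d N Q 𝓖 i1 i2 x' y' z' Y' V') :
    El T d N Q 𝓖 i1 i2 (x + x') (y + y') (z + z') (Y + Y') (V + V') where
  mem := by
    rw [Matrix.transpose_add, rt_add, fl_add]
    exact (RR T).add_mem h.mem h'.mem
  nor := (No N).add_mem h.nor h'.nor
  low := (Ge d 0).add_mem h.low h'.low
  zer := by
    rw [map_add, Matrix.transpose_add]
    exact 𝓖.add_mem h.zer h'.zer
  one := by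
    rw [map_add, h.one, h'.one, ← nbv_add]
    rfl
  bet := fun r => (nn N).add_mem (h.bet r) (h'.bet r)
  two := fun r => by
    refine (congrArg (· ∈ Ge d 2) ?_).mp ((Ge d 2).add_mem (h.two r) (h'.two r))
    have h1 : nbv N (fun p => (y + y') p.1 (i2 r p.2)) = nbv N (fun p => y p.1 (i2 r p.2)) +
      nbv N (fun p => y' p.1 (i2 r p.2)) := nbv_add N _ _
    rw [Pi.add_apply, h1]
    abel

theorem El.smul (a : ℂ) (h : El T d N Q 𝓖 i1 i2 x y z Y V) :
    El T d N Q 𝓖 i1 i2 (a • x) (a • y) (a • z) (a • Y) (a • V) where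
  mem := by
    rw [Matrix.transpose_smul, rt_smul, fl_smul]
    exact (RR T).smul_mem a h.mem
  nor := (No N).smul_mem a h.nor
  low := (Ge d 0).smul_mem a h.low
  zer := by
    rw [map_smul, Matrix.transpose_smul]
    exact 𝓖.smul_mem a h.zer
  one := by
    rw [map_smul, h.one, ← nbv_smul]
    rfl
  bet := fun r => (nn N).smul_mem a (h.bet r)
  two := fun r => by
    refine (congrArg (· ∈ Ge d 2) ?_).mp ((Ge d 2).smul_mem a (h.two r))
    have h1 : nbv N (fun p => (a • y) p.1 (i2 r p.2)) = a • nbv N (fun p => y p.1 (i2 r p.2)) := nbv_smul N _ _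
    rw [Pi.smul_apply, h1, smul_sub]

/-- the leading part of a commutator -/
theorem lead_com (h𝓖 : Gs d N Q 𝓖) (hY : Y ∈ Ge d 0) (hz : (pr d 0 Y, xᵀ) ∈ 𝓖) {W : Matrix B B ℂ} {i : S → Ω}
    (hW : W ∈ Ge d 1) (hW2 : W - nbv N (fun p => y p.1 (i p.2)) ∈ Ge d 2) :
    Y * W - W * Y + nbv N (fun p => (x * y) p.1 (i p.2)) ∈ Ge d 2 := by
  have h1 := Ge_br (sub_pr0 hY) hW
  have h2 := Ge_br (Gr_Ge (pr_Gr (d := d) 0 Y)) hW2
  rw [zero_add] at h2
  have h3 := com_nbv (N := N) (Y := pr d 0 Y) (X := xᵀ) (h𝓖.cN _ hz) y i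
  rw [Matrix.transpose_transpose] at h3
  refine (congrArg (· ∈ Ge d 2) ?_).mp ((Ge d 2).add_mem h1 h2)
  have h4 : nbv N (fun p => (x * y) p.1 (i p.2)) = -(pr d 0 Y * nbv N (fun p => y p.1 (i p.2)) -
      nbv N (fun p => y p.1 (i p.2)) * pr d 0 Y) := by
    rw [h3, neg_neg]
  rw [h4]
  simp only [Matrix.sub_mul, Matrix.mul_sub]
  abel

theorem El.br (h𝓖 : Gs d N Q 𝓖) (hN : Deg1 d N) (hT : IsSubtorsor QB T) {c : Matrix (Ix M B R) (Ix M B R) ℂ}
    (hc : c ∈ T) (h : El T d N Q 𝓖 i1 i2 x y z Y V) (h' : El T d N Q 𝓖 i1 i2 x' y' z' Y' V') :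
    El T d N Q 𝓖 i1 i2 (x * x' - x' * x) (x * y' - x' * y) (z * z' - z' * z) (Y' * Y - Y * Y')
      (fun r => (Y' * V r - V r * Y') - (Y * V' r - V' r * Y) + (V' r * V r - V r * V' r)) where
  mem := by
    have h1 := RR_br hT hc h'.mem h.mem
    rw [rt_br] at h1
    refine (congrArg (fun X => fl (rt X _ _) ∈ RR T) ?_).mp h1
    rw [Matrix.transpose_sub, Matrix.transpose_mul, Matrix.transpose_mul]
  nor := No_br h'.nor h.nor
  low := by
    have := Ge_br h'.low h.low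
    rwa [add_zero] at this
  zer := by
    have h1 := h𝓖.br _ h'.zer _ h.zer
    refine (congrArg (· ∈ 𝓖) ?_).mp h1
    rw [map_sub, pr0_mul h'.low h.low, pr0_mul h.low h'.low, Matrix.transpose_sub, Matrix.transpose_mul,
      Matrix.transpose_mul]
  one := by
    rw [map_sub, pr1_mul h'.low h.low, pr1_mul h.low h'.low, h.one, h'.one]
    have h1 := com_nbv (N := Q) (Y := pr d 0 Y') (X := x'ᵀ) (h𝓖.cQ _ h'.zer) y i1
    have h2 := com_nbv (N := Q) (Y := pr d 0 Y) (X := xᵀ) (h𝓖.cQ _ h.zer) y' i1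
    rw [Matrix.transpose_transpose] at h1 h2
    have h3 : nbv Q (fun p => (x * y' - x' * y) p.1 (i1 p.2)) = nbv Q (fun p => (x * y') p.1 (i1 p.2)) -
      nbv Q (fun p => (x' * y) p.1 (i1 p.2)) := nbv_sub Q _ _
    rw [h3, ← neg_neg (nbv Q (fun p => (x * y') p.1 (i1 p.2))), ← h2, ← neg_neg (nbv Q (fun p => (x' * y) p.1 (i1 p.2))),
      ← h1]
    abel
  bet := fun r => (nn N).add_mem ((nn N).sub_mem (h'.nor _ (h.bet r)) (h.nor _ (h'.bet r))) (nn_br (h'.bet r) (h.bet r))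
  two := fun r => by
    have e1 := lead_com h𝓖 h'.low h'.zer (nn_Ge hN (h.bet r)) (h.two r)
    have e2 := lead_com h𝓖 h.low h.zer (nn_Ge hN (h'.bet r)) (h'.two r)
    have e3 := Ge_br (nn_Ge hN (h'.bet r)) (nn_Ge hN (h.bet r))
    have e4 := (Ge d 2).add_mem ((Ge d 2).sub_mem e1 e2) e3
    refine (congrArg (· ∈ Ge d 2) ?_).mp e4
    have h3 : nbv N (fun p => (x * y' - x' * y) p.1 (i2 r p.2)) = nbv N (fun p => (x * y') p.1 (i2 r p.2)) -
      nbv N (fun p => (x' * y) p.1 (i2 r p.2)) := nbv_sub N _ _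
    rw [h3]
    abel

theorem QB_alg : ∀ x ∈ QB, IsAlgebraic ℚ x := fun x hx => (Pool.Agent.X306.EM.QB_iff x).2 hx

theorem El.der (h𝓖 : Gs d N Q 𝓖) (hA : ∀ i, AlgM (N i)) (hQ : ∀ i, AlgM (Q i)) (hT : IsSubtorsor QB T)
    (δ : Derivation ℚ ℂ ℂ) (h : El T d N Q 𝓖 i1 i2 x y z Y V) :
    El T d N Q 𝓖 i1 i2 (x.map δ) (y.map δ) (z.map δ) (Y.map δ) (fun r => (V r).map δ) where
  mem := by
    have h1 := RR_der hT QB_alg δ h.mem
    rw [rt_map] at h1
    exact h1
  nor := No_der δ (fun s b b' => deriv_alg δ (hA s b b')) h.nor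
  low := map_Ge' δ h.low
  zer := by
    rw [pr_map]
    exact h𝓖.der δ _ h.zer
  one := by
    rw [pr_map, h.one, nbv_map δ (fun s b b' => deriv_alg δ (hQ s b b'))]
    rfl
  bet := fun r => nn_der δ (fun s b b' => deriv_alg δ (hA s b b')) (h.bet r)
  two := fun r => by
    have h1 := map_Ge' δ (h.two r)
    rw [map_sub_D, nbv_map δ (fun s b b' => deriv_alg δ (hA s b b'))] at h1
    exact h1

variable {C₀ : Matrix M M ℂ} {C : Matrix B B ℂ} {ell : R → Matrix B B ℂ} {P P' : Matrix A A ℂ} {v : Matrix A Ω ℂ}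

/-- the period matrix -/
def pc (d : B → ℕ) (C₀ : Matrix M M ℂ) (C : Matrix B B ℂ) (ell : R → Matrix B B ℂ) : Matrix (Ix M B R) (Ix M B R) ℂ :=
  fromBlocks C₀ 0 0 (fromBlocks C 0 0 (blockDiagonal fun r => C * ex d (ell r)))

theorem pc_inv (hC₀ : IsUnit C₀) (hC : Bi d C) (hell : ∀ r, ell r ∈ Ge d 1) :
    (pc d C₀ C ell)⁻¹ = fromBlocks C₀⁻¹ 0 0 (fromBlocks C⁻¹ 0 0 (blockDiagonal fun r => ex d (-ell r) * C⁻¹)) := by
  refine Matrix.inv_eq_right_inv ?_
  unfold pc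
  rw [fromBlocks_multiply, fromBlocks_multiply]
  simp only [Matrix.mul_zero, Matrix.zero_mul, add_zero, zero_add]
  rw [hC.mul_inv, ← blockDiagonal_mul, Matrix.mul_nonsing_inv _ ((Matrix.isUnit_iff_isUnit_det _).1 hC₀)]
  have h3 : (fun r => C * ex d (ell r) * (ex d (-ell r) * C⁻¹)) = (1 : R → Matrix B B ℂ) := by
    funext r
    rw [Matrix.mul_assoc, ← Matrix.mul_assoc (ex d (ell r)), ex_mul_neg (hell r), Matrix.one_mul, hC.mul_inv]
    rfl
  rw [h3, blockDiagonal_one, fromBlocks_one, fromBlocks_one]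

theorem pc_log (hC₀ : IsUnit C₀) (hC : Bi d C) (hell : ∀ r, ell r ∈ Ge d 1) (δ : Derivation ℚ ℂ ℂ) :
    (pc d C₀ C ell)⁻¹ * (pc d C₀ C ell).map δ = rt (C₀⁻¹ * C₀.map δ) (C⁻¹ * C.map δ) (fun r =>
      (ex d (-ell r) * (C⁻¹ * C.map δ) * ex d (ell r) - C⁻¹ * C.map δ) + ex d (-ell r) * (ex d (ell r)).map δ) := by
  have hz : ∀ (α β : Type), (0 : Matrix α β ℂ).map δ = 0 := by
    intro α β
    ext b b'
    exact map_zero δ
  rw [pc_inv hC₀ hC hell]
  unfold pc rt qt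
  rw [fromBlocks_map, fromBlocks_map, hz, hz, hz, hz, blockDiagonal_map _ _ (map_zero δ), fromBlocks_multiply,
    fromBlocks_multiply]
  simp only [Matrix.mul_zero, Matrix.zero_mul, add_zero, zero_add]
  rw [← blockDiagonal_mul]
  congr 2
  congr 1
  funext r
  rw [map_mul_D, Matrix.mul_add, add_comm (C⁻¹ * C.map δ), sub_add_eq_add_sub, sub_add_cancel]
  congr 1
  · simp only [Matrix.mul_assoc]
  · have h1 : ex d (-ell r) * C⁻¹ * (C * (ex d (ell r)).map δ) = ex d (-ell r) * (C⁻¹ * C) * (ex d (ell r)).map δ := by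
      simp only [Matrix.mul_assoc]
    rw [h1, hC.inv_mul, Matrix.mul_one]

end Pool.Agent.KS6_11
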