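import Pool.Agent.KS6_11.Core

/-!
# The main theorem for unipotent objects relative to an arbitrary object
-/

set_option autoImplicit false
set_option linter.unusedSectionVars false
set_option linter.unusedVariables false

open Module Matrix

noncomputable section

namespace Pool.Agent.KS6_11

open Pool.Agent.W245.EB Pool.Agent.TH127.PT Pool.Agent.TH119.DR Pool.Agent.Y123.ST
open Pool.Agent.X306.RL (LL_br derD)
open Pool.Agent.X306.MT Pool.Agent.X306.CV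
open Pool.Agent.X306.MZ (InK)

variable {M B R A S β Ω : Type} [Fintype M] [DecidableEq M] [Fintype B] [DecidableEq B] [Fintype R] [DecidableEq R]
  [Fintype A] [DecidableEq A] [Fintype S] [DecidableEq S] [Fintype β] [DecidableEq β] {d : B → ℕ}
  {N : A × S → Matrix B B ℂ} {Q : A × β → Matrix B B ℂ} {𝓖 : Submodule ℂ (Matrix B B ℂ × Matrix A A ℂ)}
  {i1 : β → Ω} {i2 : R → S → Ω} {T : Set (Matrix (Ix M B R) (Ix M B R) ℂ)}
  {C₀ : Matrix M M ℂ} {C : Matrix B B ℂ} {ell : R → Matrix B B ℂ} {P P' : Matrix A A ℂ} {v : Matrix A Ω ℂ}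

/-- the hypotheses -/
structure Hy (T : Set (Matrix (Ix M B R) (Ix M B R) ℂ)) (d : B → ℕ) (N : A × S → Matrix B B ℂ)
    (Q : A × β → Matrix B B ℂ) (𝓖 : Submodule ℂ (Matrix B B ℂ × Matrix A A ℂ)) (i1 : β → Ω) (i2 : R → S → Ω)
    (C₀ : Matrix M M ℂ) (C : Matrix B B ℂ) (ell : R → Matrix B B ℂ) (P P' : Matrix A A ℂ) (v : Matrix A Ω ℂ) :
    Prop where
  hT : IsSubtorsor QB T
  hC₀ : IsUnit C₀
  hC : Bi d C
  hN : Deg1 d N
  aN : ∀ i, AlgM (N i)
  aQ : ∀ i, AlgM (Q i)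
  hB : DefK QB C N
  hG : Gs d N Q 𝓖
  hell : ∀ r, ell r ∈ nn N
  hell1 : ∀ r, ell r - nbv N (fun p => v p.1 (i2 r p.2)) ∈ Ge d 2
  hP : pc d C₀ C ell ∈ T
  log0 : ∀ δ : Derivation ℚ ℂ ℂ, (pr d 0 (C⁻¹ * C.map δ), (P.map δ * P')ᵀ) ∈ 𝓖
  log1 : ∀ δ : Derivation ℚ ℂ ℂ,
    pr d 1 (C⁻¹ * C.map δ) = nbv Q (fun p => (v.map δ - P.map δ * P' * v) p.1 (i1 p.2))

theorem Hy.log (H : Hy T d N Q 𝓖 i1 i2 C₀ C ell P P' v) (δ : Derivation ℚ ℂ ℂ) :
    El T d N Q 𝓖 i1 i2 (P.map δ * P') (v.map δ - P.map δ * P' * v) (C₀ᵀ.map δ * (C₀⁻¹)ᵀ) (C⁻¹ * C.map δ)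
      (fun r => (ex d (-ell r) * (C⁻¹ * C.map δ) * ex d (ell r) - C⁻¹ * C.map δ) +
        ex d (-ell r) * (ex d (ell r)).map δ) := by
  have hA : ∀ s b b', δ (N s b b') = 0 := fun s b b' => deriv_alg δ (H.aN s b b')
  have hnor := No_log H.hC δ hA QB_alg H.hB
  have hlow : C⁻¹ * C.map δ ∈ Ge d 0 := by
    have := Ge_mul H.hC.m' (map_Ge' δ H.hC.m)
    rwa [add_zero] at this
  have hcj := fun r => ex_cj H.hN (H.hell r) hnor
  have hder := fun r => ex_der' H.hN δ (H.hell r) (nn_der δ hA (H.hell r))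
  refine ⟨?_, hnor, hlow, H.log0 δ, H.log1 δ, fun r => (nn N).add_mem (hcj r).1 (hder r).1, fun r => ?_⟩
  · have h1 := RR_log H.hT QB_alg δ H.hP
    rw [pc_log H.hC₀ H.hC (fun r => nn_Ge H.hN (H.hell r)) δ] at h1
    refine (congrArg (fun X => fl (rt X _ _) ∈ RR T) ?_).mp h1
    rw [Matrix.transpose_mul, Matrix.transpose_transpose]
    rfl
  · have h0 : (pr d 0 (C⁻¹ * C.map δ), (P.map δ * P')ᵀ) ∈ 𝓖 := H.log0 δ
    have e1 := lead_com H.hG hlow h0 (nn_Ge H.hN (H.hell r)) (H.hell1 r)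
    have e2 := map_Ge' δ (H.hell1 r)
    rw [map_sub_D, nbv_map δ hA] at e2
    have e3 := (Ge d 2).add_mem ((Ge d 2).add_mem (hcj r).2 (hder r).2) ((Ge d 2).add_mem e1 e2)
    refine (congrArg (· ∈ Ge d 2) ?_).mp e3
    have h3 : nbv N (fun p => (v.map δ - P.map δ * P' * v) p.1 (i2 r p.2)) = nbv N (fun p => δ (v p.1 (i2 r p.2))) -
      nbv N (fun p => (P.map δ * P' * v) p.1 (i2 r p.2)) := nbv_sub N _ _
    rw [h3]
    abel

/-- the Lie algebra of the triples -/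
def La' (T : Set (Matrix (Ix M B R) (Ix M B R) ℂ)) (d : B → ℕ) (N : A × S → Matrix B B ℂ)
    (Q : A × β → Matrix B B ℂ) (𝓖 : Submodule ℂ (Matrix B B ℂ × Matrix A A ℂ)) (i1 : β → Ω) (i2 : R → S → Ω) :
    Submodule ℂ (Matrix A A ℂ × Matrix A Ω ℂ × Matrix M M ℂ) where
  carrier := {p | ∃ Y V, El T d N Q 𝓖 i1 i2 p.1 p.2.1 p.2.2 Y V}
  zero_mem' := ⟨_, _, El.zero⟩
  add_mem' := by
    rintro p p' ⟨Y, V, h⟩ ⟨Y', V', h'⟩
    exact ⟨_, _, h.add h'⟩
  smul_mem' := by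
    rintro a p ⟨Y, V, h⟩
    exact ⟨_, _, h.smul a⟩

theorem Hy.gd (H : Hy T d N Q 𝓖 i1 i2 C₀ C ell P P' v) :
    Gd1 P P' v C₀ᵀ (C₀⁻¹)ᵀ (La' T d N Q 𝓖 i1 i2) where
  br := by
    rintro x x' y y' z z' ⟨Y, V, h⟩ ⟨Y', V', h'⟩
    exact ⟨_, _, h.br H.hG H.hN H.hT H.hP h'⟩
  der := by
    rintro δ x y z ⟨Y, V, h⟩
    exact ⟨_, _, h.der H.hG H.aN H.aQ H.hT δ⟩
  log := fun δ => ⟨_, _, H.log δ⟩

/-- elements with small components, except for one block -/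
def Et (T : Set (Matrix (Ix M B R) (Ix M B R) ℂ)) (d : B → ℕ) {I : Type} [Fintype I] (N : I → Matrix B B ℂ)
    (r₀ : R) (τ : I → ℂ) (k : ℕ) : Prop :=
  ∃ Y V, fl (rt (0 : Matrix M M ℂ) Y V) ∈ RR T ∧ Y ∈ No N ∧ (∀ r, V r ∈ nn N) ∧ Y ∈ Ge d k ∧
    (∀ r, r ≠ r₀ → V r ∈ Ge d k) ∧ V r₀ - ∑ i, τ i • N i ∈ Ge d 2

/-- raising the degree -/
theorem Et.raise {I : Type} [Fintype I] {N : I → Matrix B B ℂ} (hN : Deg1 d N) (hT : IsSubtorsor QB T)
    {c : Matrix (Ix M B R) (Ix M B R) ℂ} (hc : c ∈ T) {ZS : Matrix M M ℂ} {YS : Matrix B B ℂ} {VS : R → Matrix B B ℂ}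
    (hS : fl (rt ZS YS VS) ∈ RR T) (hSn : YS ∈ No N) (hSd : YS - Dl d ∈ Ge d 1) (hSV : ∀ r, VS r ∈ nn N)
    {r₀ : R} {τ : I → ℂ} {k : ℕ} (hk : 2 ≤ k) (h : Et T d N r₀ τ k) : Et T d N r₀ τ (k + 1) := by
  obtain ⟨Y, V, h1, h2, h3, h4, h5, h6⟩ := h
  have hr : (k : ℂ) - 1 ≠ 0 := by
    intro h
    have h6 : (k : ℂ) = ((1 : ℕ) : ℂ) := by
      rw [Nat.cast_one]
      exact sub_eq_zero.1 h
    have h7 := Nat.cast_injective h6
    omega
  set q : ℂ := ((k : ℂ) - 1)⁻¹ with hqd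
  have hqq : q * ((k : ℂ) - 1) = 1 := inv_mul_cancel₀ hr
  have hV1 : ∀ r, V r ∈ Ge d 1 := fun r => nn_Ge hN (h3 r)
  have hVS1 : ∀ r, VS r ∈ Ge d 1 := fun r => nn_Ge hN (hSV r)
  refine ⟨q • ((YS * Y - Y * YS) + (k : ℂ) • Y), fun r => q • (((YS * V r - V r * YS) - (Y * VS r - VS r * Y) +
    (VS r * V r - V r * VS r)) + (k : ℂ) • V r), ?_, ?_, fun r => ?_, ?_, fun r hr => ?_, ?_⟩
  · have e1 := RR_br hT hc hS h1
    rw [rt_br, Matrix.mul_zero, Matrix.zero_mul, sub_zero] at e1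
    have e2 := (RR T).smul_mem (k : ℂ) h1
    rw [← fl_smul, ← rt_smul, smul_zero] at e2
    have e3 := (RR T).smul_mem q ((RR T).add_mem e1 e2)
    rw [← fl_add, ← rt_add, ← fl_smul, ← rt_smul, add_zero, smul_zero] at e3
    exact e3
  · exact (No N).smul_mem _ ((No N).add_mem (No_br hSn h2) ((No N).smul_mem _ h2))
  · exact (nn N).smul_mem _ ((nn N).add_mem ((nn N).add_mem ((nn N).sub_mem (hSn _ (h3 r)) (h2 _ (hSV r)))
      (nn_br (hSV r) (h3 r))) ((nn N).smul_mem _ (h3 r)))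
  · exact (Ge d (k + 1)).smul_mem _ (br_deg hSd h4)
  · refine (Ge d (k + 1)).smul_mem _ ?_
    have e1 := br_deg hSd (h5 r hr)
    have e2 := Ge_br h4 (hVS1 r)
    have e3 := Ge_br (hVS1 r) (h5 r hr)
    rw [add_comm 1 k] at e3
    refine (congrArg (· ∈ Ge d (k + 1)) ?_).mp ((Ge d (k + 1)).add_mem ((Ge d (k + 1)).sub_mem e1 e2) e3)
    abel
  · have e6 : YS * V r₀ - V r₀ * YS + ((1 : ℕ) : ℂ) • V r₀ ∈ Ge d 2 := br_deg hSd (hV1 r₀)
    have e7 : Y * VS r₀ - VS r₀ * Y ∈ Ge d 2 := Ge_mono (by omega) (Ge_br h4 (hVS1 r₀))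
    have e8 : VS r₀ * V r₀ - V r₀ * VS r₀ ∈ Ge d 2 := Ge_br (hVS1 r₀) (hV1 r₀)
    have e9 := (Ge d 2).add_mem ((Ge d 2).smul_mem q ((Ge d 2).add_mem ((Ge d 2).sub_mem e6 e7) e8)) h6
    refine (congrArg (· ∈ Ge d 2) ?_).mp e9
    have h10 : V r₀ = q • (((k : ℂ) - 1) • V r₀) := by rw [smul_smul, hqq, one_smul]
    have h11 : V r₀ - ∑ s, τ s • N s = q • (((k : ℂ) - 1) • V r₀) - ∑ s, τ s • N s := by rw [← h10]
    rw [h11, ← add_sub_assoc, ← smul_add, Nat.cast_one, one_smul, sub_smul, one_smul]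
    congr 2
    abel

/-- the elements concentrated in one block -/
def m1 (T : Set (Matrix (Ix M B R) (Ix M B R) ℂ)) {I : Type} (N : I → Matrix B B ℂ) (r₀ : R) :
    Submodule ℂ (Matrix B B ℂ) where
  carrier := {x | x ∈ nn N ∧ fl (rt (0 : Matrix M M ℂ) 0 (Pi.single r₀ x)) ∈ RR T}
  zero_mem' := ⟨(nn N).zero_mem, by
    rw [Pi.single_zero, rt_zero, fl_zero]
    exact (RR T).zero_mem⟩
  add_mem' := by
    rintro x y ⟨h1, h2⟩ ⟨h3, h4⟩
    refine ⟨(nn N).add_mem h1 h3, ?_⟩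
    have h5 := (RR T).add_mem h2 h4
    rwa [← fl_add, ← rt_add, add_zero, add_zero, ← Pi.single_add] at h5
  smul_mem' := by
    rintro a x ⟨h1, h2⟩
    refine ⟨(nn N).smul_mem a h1, ?_⟩
    have h5 := (RR T).smul_mem a h2
    rwa [← fl_smul, ← rt_smul, smul_zero, smul_zero, ← Pi.single_smul] at h5

theorem m1_br {I : Type} {N : I → Matrix B B ℂ} (hT : IsSubtorsor QB T) {c : Matrix (Ix M B R) (Ix M B R) ℂ}
    (hc : c ∈ T) {r₀ : R} {x y : Matrix B B ℂ} (h : x ∈ m1 T N r₀) (h' : y ∈ m1 T N r₀) :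
    x * y - y * x ∈ m1 T N r₀ := by
  refine ⟨nn_br h.1 h'.1, ?_⟩
  have h1 := RR_br hT hc h.2 h'.2
  rw [rt_br] at h1
  refine (congrArg (fun X => fl X ∈ RR T) ?_).mp h1
  congr 1
  · rw [Matrix.mul_zero, sub_zero]
  · rw [Matrix.mul_zero, sub_zero]
  · funext r
    rw [Matrix.zero_mul, Matrix.zero_mul, Matrix.mul_zero, Matrix.mul_zero, sub_zero, sub_zero, zero_add]
    by_cases hr : r = r₀
    · subst hr
      rw [Pi.single_eq_same, Pi.single_eq_same, Pi.single_eq_same]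
    · rw [Pi.single_eq_of_ne hr, Pi.single_eq_of_ne hr, Pi.single_eq_of_ne hr, Matrix.mul_zero, sub_zero]

/-- The Lie algebra contains the unipotent Lie algebra of every block. -/
theorem Hy.all_mem (H : Hy T d N Q 𝓖 i1 i2 C₀ C ell P P' v)
    (hinj : ∀ r s r' s', i2 r s = i2 r' s' → r = r' ∧ s = s') (hdis : ∀ b r s, i1 b ≠ i2 r s)
    (hone : ∃ y z, ((1 : Matrix A A ℂ), y, z) ∈ La' T d N Q 𝓖 i1 i2)
    (hall : ∀ y : Matrix A Ω ℂ, (∀ a b, y a (i1 b) = 0) → (0, y, 0) ∈ La' T d N Q 𝓖 i1 i2)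
    {n : R → Matrix B B ℂ} (hn : ∀ r, n r ∈ nn N) : fl (rt (0 : Matrix M M ℂ) 0 n) ∈ RR T := by
  classical
  obtain ⟨yS, zS, YS, VS, hS⟩ := hone
  have hSz : pr d 0 YS = Dl d := by
    have h1 : (pr d 0 YS, (1 : Matrix A A ℂ)) ∈ 𝓖 := by
      have h2 : (pr d 0 YS, (1 : Matrix A A ℂ)ᵀ) ∈ 𝓖 := hS.zer
      rwa [Matrix.transpose_one] at h2
    have h2 := 𝓖.sub_mem h1 H.hG.one
    rw [Prod.mk_sub_mk, sub_self] at h2
    exact sub_eq_zero.1 (H.hG.inj _ h2)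
  have hSd : YS - Dl d ∈ Ge d 1 := by
    rw [← hSz]
    exact sub_pr0 hS.low
  have step : ∀ (r₀ : R) (τ : A × S → ℂ), Et T d N r₀ τ 2 := by
    intro r₀ τ
    let y : Matrix A Ω ℂ := fun a ω => if h : ∃ s, ω = i2 r₀ s then τ (a, h.choose) else 0
    have hy0 : ∀ a r s, r ≠ r₀ → y a (i2 r s) = 0 := by
      intro a r s hr
      change (if h : ∃ s', i2 r s = i2 r₀ s' then τ (a, h.choose) else 0) = 0
      rw [dif_neg]
      rintro ⟨s', hs'⟩
      exact hr (hinj _ _ _ _ hs').1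
    have hy1 : ∀ a s, y a (i2 r₀ s) = τ (a, s) := by
      intro a s
      change (if h : ∃ s', i2 r₀ s = i2 r₀ s' then τ (a, h.choose) else 0) = τ (a, s)
      have h : ∃ s', i2 r₀ s = i2 r₀ s' := ⟨s, rfl⟩
      rw [dif_pos h]
      have h1 := (hinj _ _ _ _ h.choose_spec).2
      rw [← h1]
    have hy2 : ∀ a b, y a (i1 b) = 0 := by
      intro a b
      change (if h : ∃ s', i1 b = i2 r₀ s' then τ (a, h.choose) else 0) = 0
      rw [dif_neg]
      rintro ⟨s', hs'⟩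
      exact hdis _ _ _ hs'
    obtain ⟨Y, V, h⟩ := hall y hy2
    have hz : pr d 0 Y = 0 := by
      refine H.hG.inj _ ?_
      have h1 : (pr d 0 Y, (0 : Matrix A A ℂ)ᵀ) ∈ 𝓖 := h.zer
      rwa [Matrix.transpose_zero] at h1
    have hz1 : pr d 1 Y = 0 := by
      have h1 : pr d 1 Y = nbv Q (fun p => y p.1 (i1 p.2)) := h.one
      rw [h1]
      have h2 : (fun p : A × β => y p.1 (i1 p.2)) = 0 := by
        funext p
        exact hy2 _ _
      rw [h2, nbv_zero]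
    have hY1 := sub_pr0 h.low
    rw [hz, sub_zero] at hY1
    have hY2 := sub_pr hY1
    rw [zero_add, hz1, sub_zero] at hY2
    refine ⟨Y, V, ?_, h.nor, h.bet, hY2, fun r hr => ?_, ?_⟩
    · have h1 : fl (rt (0 : Matrix M M ℂ)ᵀ Y V) ∈ RR T := h.mem
      rwa [Matrix.transpose_zero] at h1
    · have h1 := h.two r
      have h2 : (fun p : A × S => y p.1 (i2 r p.2)) = 0 := by
        funext p
        exact hy0 _ _ _ hr
      change V r - nbv N (fun p : A × S => y p.1 (i2 r p.2)) ∈ Ge d 2 at h1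
      rwa [h2, nbv_zero, sub_zero] at h1
    · have h1 := h.two r₀
      have h2 : (fun p : A × S => y p.1 (i2 r₀ p.2)) = τ := by
        funext p
        exact hy1 _ _
      change V r₀ - nbv N (fun p : A × S => y p.1 (i2 r₀ p.2)) ∈ Ge d 2 at h1
      rw [h2] at h1
      exact h1
  have steps : ∀ (r₀ : R) (τ : A × S → ℂ) (k : ℕ), Et T d N r₀ τ (k + 2) := by
    intro r₀ τ k
    induction k with
    | zero => exact step r₀ τ
    | succ k ih => exact Et.raise H.hN H.hT H.hP hS.mem hS.nor hSd hS.bet (by omega) ih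
  have hm : ∀ r₀, nn N ≤ m1 T N r₀ := by
    intro r₀
    refine full H.hN (fun x hx => hx.1) (fun x hx y hy => m1_br H.hT H.hP hx hy) fun i => ?_
    obtain ⟨Y, V, h1, h2, h3, h4, h5, h6⟩ := steps r₀ (Pi.single i 1) (top d)
    have h7 : Y = 0 := Ge_top (by omega) h4
    have h8 : V = Pi.single r₀ (V r₀) := by
      funext r
      by_cases hr : r = r₀
      · subst hr
        rw [Pi.single_eq_same]
      · rw [Pi.single_eq_of_ne hr]
        exact Ge_top (by omega) (h5 r hr)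
    rw [h7, h8] at h1
    refine ⟨V r₀, ⟨h3 r₀, h1⟩, ?_⟩
    have h9 : ∑ j, (Pi.single i (1 : ℂ) : A × S → ℂ) j • N j = N i := nbv_single N i
    rw [h9] at h6
    exact h6
  have key : ∀ s : Finset R, fl (rt (0 : Matrix M M ℂ) 0 (∑ i ∈ s, Pi.single i (n i))) ∈ RR T := by
    intro s
    induction s using Finset.induction_on with
    | empty =>
      rw [Finset.sum_empty, rt_zero, fl_zero]
      exact (RR T).zero_mem
    | insert a s ha ih =>
      have h1 := (hm a (hn a)).2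
      have h2 := (RR T).add_mem h1 ih
      rw [← fl_add, ← rt_add, add_zero, add_zero] at h2
      rwa [Finset.sum_insert ha]
  have h1 := key Finset.univ
  refine (congrArg (fun X => fl (rt 0 0 X) ∈ RR T) ?_).mp h1
  funext r
  rw [Finset.sum_apply, Finset.sum_eq_single r]
  · rw [Pi.single_eq_same]
  · intro i _ hi
    rw [Pi.single_eq_of_ne (Ne.symm hi)]
  · intro h
    exact absurd (Finset.mem_univ _) h

theorem fb_pow {W : Matrix (B ⊕ (B × R)) (B ⊕ (B × R)) ℂ} (k : ℕ) :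
    (fromBlocks 0 0 0 W : Matrix (Ix M B R) (Ix M B R) ℂ) ^ (k + 1) = fromBlocks 0 0 0 (W ^ (k + 1)) := by
  induction k with
  | zero => rw [zero_add, pow_one, pow_one]
  | succ k ih =>
    rw [pow_succ, ih, fromBlocks_multiply]
    simp only [Matrix.mul_zero, Matrix.zero_mul, add_zero, zero_add]
    rw [← pow_succ]

theorem fb_ee {W : Matrix (B ⊕ (B × R)) (B ⊕ (B × R)) ℂ} (k : ℕ) :
    ee (fromBlocks 0 0 0 W : Matrix (Ix M B R) (Ix M B R) ℂ) (k + 1) = fromBlocks 0 0 0 (ee W (k + 1)) := by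
  unfold Pool.Agent.X306.MT.ee
  rw [fb_pow, fromBlocks_smul]
  simp only [smul_zero]

theorem fb_sum {W : Matrix (B ⊕ (B × R)) (B ⊕ (B × R)) ℂ} (K : ℕ) :
    ∑ k ∈ Finset.range (K + 1), ee (fromBlocks 0 0 0 W : Matrix (Ix M B R) (Ix M B R) ℂ) k =
      fromBlocks 1 0 0 (∑ k ∈ Finset.range (K + 1), ee W k) := by
  induction K with
  | zero => simp only [zero_add, Finset.sum_range_one, ee_zero, fromBlocks_one]
  | succ K ih =>
    rw [Finset.sum_range_succ, ih, fb_ee, fromBlocks_add, Finset.sum_range_succ _ (K + 1)]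
    simp only [add_zero]

/-- conjugates by exponentials -/
theorem ex_conj_mem (hN : Deg1 d N) {X x : Matrix B B ℂ} (hX : X ∈ nn N) (hx : x ∈ nn N) :
    ex d (-X) * x * ex d X ∈ nn N := by
  have h1 : x ∈ No N := fun y hy => nn_br hx hy
  have h2 := (nn N).add_mem (ex_cj hN hX h1).1 hx
  rwa [sub_add_cancel] at h2

/-- **Main theorem.** -/
theorem Hy.main (H : Hy T d N Q 𝓖 i1 i2 C₀ C ell P P' v)
    (hinj : ∀ r s r' s', i2 r s = i2 r' s' → r = r' ∧ s = s') (hdis : ∀ b r s, i1 b ≠ i2 r s)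
    (hone : ∃ y z, ((1 : Matrix A A ℂ), y, z) ∈ La' T d N Q 𝓖 i1 i2)
    (hall : ∀ y : Matrix A Ω ℂ, (∀ a b, y a (i1 b) = 0) → (0, y, 0) ∈ La' T d N Q 𝓖 i1 i2)
    {n : R → Matrix B B ℂ} (hn : ∀ r, n r ∈ nn N) {x : Matrix (Ix M B R) (Ix M B R) ℂ} (hx : x ∈ T) :
    fromBlocks 1 0 0 (fromBlocks 1 0 0 (blockDiagonal fun r => C * ex d (n r) * C⁻¹)) * x ∈ T := by
  have h0 := H.all_mem hinj hdis hone hall (n := fun r => ex d (-ell r) * n r * ex d (ell r))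
    fun r => ex_conj_mem H.hN (H.hell r) (hn r)
  have h1 := conj_mem' H.hT H.hP h0
  have hg1 : ∀ r, ell r ∈ Ge d 1 := fun r => nn_Ge H.hN (H.hell r)
  have h2 : pc d C₀ C ell * rt (0 : Matrix M M ℂ) 0 (fun r => ex d (-ell r) * n r * ex d (ell r)) *
      (pc d C₀ C ell)⁻¹ = fromBlocks 0 0 0 (fromBlocks 0 0 0 (blockDiagonal fun r => C * n r * C⁻¹)) := by
    rw [pc_inv H.hC₀ H.hC hg1]
    unfold pc rt qt
    rw [fromBlocks_multiply, fromBlocks_multiply]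
    simp only [Matrix.mul_zero, Matrix.zero_mul, add_zero, zero_add]
    rw [fromBlocks_multiply, fromBlocks_multiply]
    simp only [Matrix.mul_zero, Matrix.zero_mul, add_zero, zero_add]
    rw [← blockDiagonal_mul, ← blockDiagonal_mul]
    congr 2
    congr 1
    funext r
    have h3 : C * ex d (ell r) * (ex d (-ell r) * n r * ex d (ell r)) * (ex d (-ell r) * C⁻¹) =
        C * (ex d (ell r) * ex d (-ell r)) * n r * (ex d (ell r) * ex d (-ell r)) * C⁻¹ := by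
      simp only [Matrix.mul_assoc]
    rw [h3, ex_mul_neg (hg1 r), Matrix.mul_one, Matrix.mul_one]
  rw [h2] at h1
  set V : R → Matrix B B ℂ := fun r => C * n r * C⁻¹ with hV
  have hV1 : ∀ r, V r ∈ Ge d 1 := fun r => H.hC.conj_mem (nn_Ge H.hN (hn r))
  obtain ⟨m, hm⟩ : ∃ m, top d = m + 1 := ⟨top d - 1, by
    have : 0 < top d := Nat.succ_pos _
    omega⟩
  have hsum : ∑ k ∈ Finset.range (m + 1), ee (fromBlocks 0 0 0 (fromBlocks 0 0 0 (blockDiagonal V)) :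
      Matrix (Ix M B R) (Ix M B R) ℂ) k =
      fromBlocks 1 0 0 (fromBlocks 1 0 0 (blockDiagonal fun r => ex d (V r))) := by
    rw [fb_sum, bd_sum, ← hm]
    rfl
  have h4 := exp_mem H.hT h1 (m := m) (by
    rw [fb_ee, bd_ee, ← hm]
    have h2 : (fun r => ee (V r) (top d)) = 0 := by
      funext r
      exact ee_top (hV1 r) le_rfl
    rw [h2, blockDiagonal_zero, fromBlocks_zero, fromBlocks_zero]) hx (by
    rw [hsum]
    refine IsUnit.mul ?_ (H.hT.isUnit x hx)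
    refine IsUnit.of_mul_eq_one (fromBlocks 1 0 0 (fromBlocks 1 0 0 (blockDiagonal fun r => ex d (-V r)))) ?_
    rw [fromBlocks_multiply, fromBlocks_multiply]
    simp only [Matrix.mul_zero, Matrix.zero_mul, add_zero, zero_add, Matrix.one_mul]
    rw [← blockDiagonal_mul]
    have h3 : (fun r => ex d (V r) * ex d (-V r)) = (1 : R → Matrix B B ℂ) := by
      funext r
      exact ex_mul_neg (hV1 r)
    rw [h3, blockDiagonal_one, fromBlocks_one, fromBlocks_one])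
  rw [hsum] at h4
  refine (congrArg (· ∈ T) ?_).mp h4
  congr 4
  funext r
  exact ex_conj H.hC (n r)

end Pool.Agent.KS6_11
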