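import Pool.Agent.KS6_11.Rt
import Pool.Graph.R_pool_sql_team_seeded_64922ed1.X306.MZ.Uni

/-!
# The Betti form from the monodromy
-/

set_option autoImplicit false
set_option linter.unusedSectionVars false
set_option linter.unusedVariables false

open Module Matrix

noncomputable section

namespace Pool.Agent.KS6_11

open Pool.Agent.X306.MT Pool.Agent.X306.CV
open Pool.Agent.X306.MZ (InK bch FF FF_pos ex_add ex_zero)

variable {B S : Type} [Fintype B] [DecidableEq B] {d : B → ℕ} {N : S → Matrix B B ℂ} {C : Matrix B B ℂ}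
  {K : Subfield ℂ}

/-- a complex number is in `K` if the functionals which vanish at `1` vanish at it -/
theorem mem_of_fun {z : ℂ} (h : ∀ g : ℂ →ₗ[K] K, g 1 = 0 → g z = 0) : z ∈ K := by
  by_contra hz
  have h1 : z ∉ Submodule.span K {(1 : ℂ)} := by
    intro h2
    obtain ⟨a, rfl⟩ := Submodule.mem_span_singleton.1 h2
    apply hz
    change (a : ℂ) * 1 ∈ K
    rw [mul_one]
    exact a.2
  obtain ⟨g, hg1, hg2⟩ := Submodule.exists_le_ker_of_notMem h1
  exact hg1 (h g (hg2 (Submodule.subset_span rfl)))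

/-- the linear coefficient of a polynomial function with values in `K` at the natural numbers -/
theorem coeff_mem {n : ℕ} (hn : 1 < n) (e : ℕ → ℂ) (h : ∀ k : ℕ, ∑ i ∈ Finset.range n, (k : ℂ) ^ i * e i ∈ K) :
    e 1 ∈ K := by
  refine mem_of_fun fun g hg => ?_
  have hgK : ∀ a ∈ K, g a = 0 := by
    intro a ha
    have h1 : a = (⟨a, ha⟩ : K) • (1 : ℂ) := (mul_one a).symm
    rw [h1, map_smul, hg, smul_zero]
  let p : Polynomial K := ∑ i ∈ Finset.range n, Polynomial.C (g (e i)) * Polynomial.X ^ i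
  have hp : p = 0 := by
    refine Polynomial.eq_zero_of_infinite_isRoot p ?_
    refine Set.Infinite.mono (s := Set.range fun k : ℕ => (k : K)) ?_
      (Set.infinite_range_of_injective Nat.cast_injective)
    rintro _ ⟨k, rfl⟩
    change p.eval (k : K) = 0
    rw [Polynomial.eval_finset_sum]
    have h2 := hgK _ (h k)
    rw [map_sum] at h2
    rw [← h2]
    refine Finset.sum_congr rfl fun i _ => ?_
    rw [Polynomial.eval_mul, Polynomial.eval_C, Polynomial.eval_pow, Polynomial.eval_X]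
    have h3 : (k : ℂ) ^ i * e i = ((k : K) ^ i) • e i := by
      change _ = (((k : K) ^ i : K) : ℂ) * e i
      push_cast
      rfl
    rw [h3, map_smul, smul_eq_mul, mul_comm]
  have h1 := congrArg (fun q : Polynomial K => q.coeff 1) hp
  simp only [p, Polynomial.finset_sum_coeff, Polynomial.coeff_C_mul, Polynomial.coeff_X_pow, Polynomial.coeff_zero] at h1
  rw [Finset.sum_eq_single 1] at h1
  · simpa using h1
  · intro i _ hi
    rw [if_neg (Ne.symm hi), mul_zero]
  · intro h2
    exact absurd (Finset.mem_range.2 hn) h2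

theorem InK_mul {M M' : Matrix B B ℂ} (h : InK K M) (h' : InK K M') : InK K (M * M') := by
  intro b b'
  rw [Matrix.mul_apply]
  exact K.sum_mem fun c _ => K.mul_mem (h _ _) (h' _ _)

theorem InK_one : InK K (1 : Matrix B B ℂ) := by
  intro b b'
  rw [Matrix.one_apply]
  split_ifs
  · exact K.one_mem
  · exact K.zero_mem

/-- the logarithm of a unipotent matrix over `K` -/
theorem log_mem (hC : Bi d C) {t : Matrix B B ℂ} (ht : t ∈ Ge d 1) (h : InK K (C * ex d t * C⁻¹)) :
    InK K (C * t * C⁻¹) := by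
  have hpow : ∀ k : ℕ, InK K (C * ex d ((k : ℂ) • t) * C⁻¹) := by
    intro k
    induction k with
    | zero =>
      rw [Nat.cast_zero, zero_smul, ex_zero, Matrix.mul_one, hC.mul_inv]
      exact InK_one
    | succ k ih =>
      rw [Nat.cast_succ, ex_add ht, one_smul]
      have h1 : C * (ex d ((k : ℂ) • t) * ex d t) * C⁻¹ = (C * ex d ((k : ℂ) • t) * C⁻¹) * (C * ex d t * C⁻¹) := by
        have h2 : (C * ex d ((k : ℂ) • t) * C⁻¹) * (C * ex d t * C⁻¹) =
            C * ex d ((k : ℂ) • t) * (C⁻¹ * C) * ex d t * C⁻¹ := by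
          simp only [Matrix.mul_assoc]
        rw [h2, hC.inv_mul, Matrix.mul_one]
        simp only [Matrix.mul_assoc]
      rw [h1]
      exact InK_mul ih h
  rcases Nat.lt_or_ge 1 (top d) with htop | htop
  · intro b b'
    have h1 := coeff_mem (K := K) htop (fun i => (C * ee t i * C⁻¹) b b') (fun k => by
      have h2 := hpow k b b'
      refine (congrArg (· ∈ K) ?_).mp h2
      unfold ex
      rw [Finset.mul_sum, Finset.sum_mul, Matrix.sum_apply]
      refine Finset.sum_congr rfl fun i _ => ?_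
      unfold ee
      rw [smul_pow, Matrix.mul_smul, Matrix.mul_smul, Matrix.smul_mul, Matrix.smul_mul, Matrix.mul_smul,
        Matrix.smul_mul, Matrix.smul_apply, Matrix.smul_apply, Matrix.smul_apply, smul_eq_mul, smul_eq_mul, smul_eq_mul]
      ring)
    have h2 : ee t 1 = t := by
      unfold ee
      rw [Nat.factorial_one, Nat.cast_one, inv_one, one_smul, pow_one]
    rw [h2] at h1
    exact h1
  · have h1 : t = 0 := Ge_top htop ht
    rw [h1, Matrix.mul_zero, Matrix.zero_mul]
    intro b b'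
    exact K.zero_mem

/-- **The Betti form of the Lie algebra is defined over `K`** if the Lie algebra contains enough elements whose Betti form
is defined over `K`. -/
theorem defK_of (hC : Bi d C) (hN : Deg1 d N) (h : ∀ s, ∃ (a : ℂ) (t : Matrix B B ℂ), t ∈ nn N ∧
    InK K (C * t * C⁻¹) ∧ a • t - N s ∈ Ge d 2) : DefK K C N := by
  let 𝔪 : Submodule ℂ (Matrix B B ℂ) := Submodule.span ℂ {x | x ∈ nn N ∧ InK K (C * x * C⁻¹)}
  have hle : 𝔪 ≤ nn N := Submodule.span_le.2 fun x hx => hx.1
  have hbr : ∀ x ∈ 𝔪, ∀ y ∈ 𝔪, x * y - y * x ∈ 𝔪 := by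
    intro x hx y hy
    induction hx using Submodule.span_induction with
    | mem x hx =>
      induction hy using Submodule.span_induction with
      | mem y hy =>
        refine Submodule.subset_span ⟨nn_br hx.1 hy.1, ?_⟩
        have h1 : ∀ x y : Matrix B B ℂ, C * (x * y) * C⁻¹ = (C * x * C⁻¹) * (C * y * C⁻¹) := by
          intro x y
          have h2 : (C * x * C⁻¹) * (C * y * C⁻¹) = C * x * (C⁻¹ * C) * y * C⁻¹ := by
            simp only [Matrix.mul_assoc]
          rw [h2, hC.inv_mul, Matrix.mul_one]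
          simp only [Matrix.mul_assoc]
        rw [Matrix.mul_sub, Matrix.sub_mul, h1, h1]
        exact (InK_mul hx.2 hy.2).sub (InK_mul hy.2 hx.2)
      | zero =>
        rw [Matrix.mul_zero, Matrix.zero_mul, sub_zero]
        exact 𝔪.zero_mem
      | add y y' _ _ h2 h3 =>
        refine (congrArg (· ∈ 𝔪) ?_).mp (𝔪.add_mem h2 h3)
        rw [Matrix.mul_add, Matrix.add_mul]
        abel
      | smul a y _ h2 =>
        refine (congrArg (· ∈ 𝔪) ?_).mp (𝔪.smul_mem a h2)
        rw [Matrix.mul_smul, Matrix.smul_mul, smul_sub]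
    | zero =>
      rw [Matrix.mul_zero, Matrix.zero_mul, sub_zero]
      exact 𝔪.zero_mem
    | add y y' _ _ h2 h3 =>
      refine (congrArg (· ∈ 𝔪) ?_).mp (𝔪.add_mem h2 h3)
      rw [Matrix.mul_add, Matrix.add_mul]
      abel
    | smul a y _ h2 =>
      refine (congrArg (· ∈ 𝔪) ?_).mp (𝔪.smul_mem a h2)
      rw [Matrix.mul_smul, Matrix.smul_mul, smul_sub]
  have hfull : nn N ≤ 𝔪 := full hN hle hbr fun s => by
    obtain ⟨a, t, h1, h2, h3⟩ := h s
    exact ⟨a • t, 𝔪.smul_mem a (Submodule.subset_span ⟨h1, h2⟩), h3⟩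
  intro M hM
  have h1 : C⁻¹ * M * C ∈ 𝔪 := hfull hM
  have key : ∀ x ∈ 𝔪, C * x * C⁻¹ ∈ Submodule.span ℂ {M' : Matrix B B ℂ | M' ∈ nB C N ∧ InK K M'} := by
    intro x hx
    induction hx using Submodule.span_induction with
    | mem x hx => exact Submodule.subset_span ⟨conj_nB hC hx.1, hx.2⟩
    | zero =>
      rw [Matrix.mul_zero, Matrix.zero_mul]
      exact Submodule.zero_mem _
    | add y y' _ _ h2 h3 =>
      rw [Matrix.mul_add, Matrix.add_mul]
      exact Submodule.add_mem _ h2 h3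
    | smul a y _ h2 =>
      rw [Matrix.mul_smul, Matrix.smul_mul]
      exact Submodule.smul_mem _ a h2
  have h2 := key _ h1
  rwa [nB_conj hC] at h2

variable [Fintype S]

/-- the logarithm of the monodromy along a loop -/
theorem loop_log (hN : Deg1 d N) {X Y : Matrix B B ℂ} (hX : X ∈ nn N) (hY : Y ∈ nn N) {l l' : S → ℂ}
    (h : X - ∑ s, l s • N s ∈ Ge d 2) (h' : Y - ∑ s, l' s • N s ∈ Ge d 2) :
    ∃ t ∈ nn N, ex d X * (ex d Y)⁻¹ = ex d t ∧ t - ∑ s, (l s - l' s) • N s ∈ Ge d 2 := by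
  have hpos : Pool.Agent.X306.MZ.Pos d N := fun s b b' hb => hN s b b' (by omega)
  have hhom : Pool.Agent.X306.MZ.Homg d (fun _ => 1) N := fun s b b' hb => hN s b b' hb
  obtain ⟨t, h1, h2, h3⟩ := bch hpos hhom hX ((nn N).neg_mem hY)
  have h4 : (ex d Y)⁻¹ = ex d (-Y) := Matrix.inv_eq_right_inv (ex_mul_neg (nn_Ge hN hY))
  refine ⟨t, h1, by rw [h4, h2], ?_⟩
  have h5 : t - (X + -Y) ∈ Ge d 2 := FF_pos hpos 1 h3
  refine (congrArg (· ∈ Ge d 2) ?_).mp ((Ge d 2).add_mem h5 ((Ge d 2).sub_mem h h'))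
  simp only [sub_smul, Finset.sum_sub_distrib]
  abel

end Pool.Agent.KS6_11
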