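import Pool.Agent.KS6_11.Core2

/-!
# Mixed Tate objects
-/

set_option autoImplicit false
set_option linter.unusedSectionVars false
set_option linter.unusedVariables false

open Module Matrix

noncomputable section

namespace Pool.Agent.KS6_11

open Pool.Agent.W245.EB Pool.Agent.TH127.PT Pool.Agent.TH119.DR Pool.Agent.Y123.ST
open Pool.Agent.X306.RL (LL_br derD)
open Pool.Agent.X306.MT Pool.Agent.X306.CV
open Pool.Agent.X306.MZ (InK)

section tri

variable {B : Type} [Fintype B] [DecidableEq B] {d : B → ℕ} {C : Matrix B B ℂ} {w : ℂ}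

theorem Tri.bi (h : Tri d w C) : Bi d C := ⟨h.isUnit, h.mem, h.inv_mem⟩

theorem pr0_Tri (h : Tri d w C) : pr d 0 C = La d w := by
  ext b b'
  rw [pr_apply]
  unfold La
  rw [diagonal_apply]
  by_cases h1 : d b' = d b + 0
  · rw [if_pos h1, h.dia b b' h1]
  · rw [if_neg h1, if_neg]
    rintro rfl
    exact h1 rfl

theorem La_map (hw : w ≠ 0) (δ : Derivation ℚ ℂ ℂ) : (La d w).map δ = (δ w / w) • (La d w * Dl d) := by
  have hpow : ∀ k : ℕ, δ (w ^ k) = (δ w / w) * ((k : ℂ) * w ^ k) := by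
    intro k
    rw [Derivation.leibniz_pow]
    rcases k with _ | k
    · simp
    · rw [Nat.add_sub_cancel, nsmul_eq_mul, smul_eq_mul]
      field_simp
      ring
  ext b b'
  unfold La Dl
  rw [Matrix.map_apply, diagonal_mul_diagonal, Matrix.smul_apply, diagonal_apply, diagonal_apply]
  split_ifs with h
  · rw [hpow, smul_eq_mul]
    ring
  · rw [map_zero, smul_zero]

theorem Dl_Gr : Dl d ∈ Gr d 0 := by
  intro b b' h
  unfold Dl
  rw [diagonal_apply_ne]
  rintro rfl
  exact h rfl

theorem Dl_Gr_br {X : Matrix B B ℂ} (hX : X ∈ Gr d 1) : Dl d * X - X * Dl d = -X := by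
  ext b b'
  unfold Dl
  rw [Matrix.sub_apply, diagonal_mul, mul_diagonal, Matrix.neg_apply]
  by_cases h : d b' = d b + 1
  · rw [h]
    push_cast
    ring
  · rw [hX b b' h]
    ring

theorem pr_self {k : ℕ} {X : Matrix B B ℂ} (hX : X ∈ Gr d k) : pr d k X = X := by
  ext b b'
  rw [pr_apply]
  split_ifs with h
  · rfl
  · exact (hX b b' h).symm

/-- the logarithmic derivative in degrees zero and one -/
theorem Tri_log (h : Tri d w C) {L : Matrix B B ℂ} (hL : L ∈ Gr d 1)
    (h1 : ∀ b b', d b' = d b + 1 → C b b' = w ^ d b * L b b') (δ : Derivation ℚ ℂ ℂ) :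
    pr d 0 (C⁻¹ * C.map δ) = (δ w / w) • Dl d ∧ pr d 1 (C⁻¹ * C.map δ) = L.map δ - (δ w / w) • L := by
  have hw := h.ne
  have hL' : La d w⁻¹ * La d w = 1 := by
    have := La_mul (d := d) (inv_ne_zero hw)
    rwa [inv_inv] at this
  have hbi := Tri.bi h
  set Y : Matrix B B ℂ := C⁻¹ * C.map δ with hY
  have hY0 : Y ∈ Ge d 0 := by
    have := Ge_mul hbi.m' (map_Ge' δ hbi.m)
    rwa [add_zero] at this
  have hCY : C * Y = C.map δ := by
    rw [hY, ← Matrix.mul_assoc, hbi.mul_inv, Matrix.one_mul]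
  have hpr1 : pr d 1 C = La d w * L := by
    ext b b'
    rw [pr_apply]
    unfold La
    rw [diagonal_mul]
    by_cases h2 : d b' = d b + 1
    · rw [if_pos h2, h1 b b' h2]
    · rw [if_neg h2, hL b b' h2, mul_zero]
  have e0 : La d w * pr d 0 Y = (δ w / w) • (La d w * Dl d) := by
    rw [← La_map hw, ← pr0_Tri h, ← pr_map, ← hCY, pr0_mul hbi.m hY0]
  have z0 : pr d 0 Y = (δ w / w) • Dl d := by
    have := congrArg (fun X => La d w⁻¹ * X) e0
    beta_reduce at this
    rw [← Matrix.mul_assoc, hL', Matrix.one_mul, Matrix.mul_smul, ← Matrix.mul_assoc, hL', Matrix.one_mul] at this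
    exact this
  refine ⟨z0, ?_⟩
  have e1 : La d w * pr d 1 Y + La d w * L * pr d 0 Y = (La d w * L).map δ := by
    rw [← hpr1, ← pr_map, ← hCY, pr1_mul hbi.m hY0, pr0_Tri h, hpr1]
  rw [map_mul_D, La_map hw, z0] at e1
  have e2 := congrArg (fun X => La d w⁻¹ * X) e1
  beta_reduce at e2
  simp only [Matrix.mul_add, Matrix.smul_mul, Matrix.mul_smul, ← Matrix.mul_assoc, hL', Matrix.one_mul] at e2
  have e3 : pr d 1 Y = (δ w / w) • (Dl d * L) + L.map δ - (δ w / w) • (L * Dl d) := by
    rw [← e2, add_sub_cancel_right]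
  rw [e3]
  have e4 : (δ w / w) • (Dl d * L) = (δ w / w) • (L * Dl d) - (δ w / w) • L := by
    rw [← smul_sub]
    congr 1
    have e5 := Dl_Gr_br hL
    rw [sub_eq_iff_eq_add] at e5
    rw [e5]
    abel
  rw [e4]
  abel

end tri

section G

variable {B S β : Type} [Fintype B] [DecidableEq B] [Fintype S] [DecidableEq S] [Fintype β] [DecidableEq β] {d : B → ℕ}

/-- the multiples of the degree operator -/
def GT (d : B → ℕ) : Submodule ℂ (Matrix B B ℂ × Matrix Unit Unit ℂ) := Submodule.span ℂ {(Dl d, 1)}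

theorem mem_GT {p : Matrix B B ℂ × Matrix Unit Unit ℂ} : p ∈ GT d ↔ ∃ a : ℂ, a • (Dl d, (1 : Matrix Unit Unit ℂ)) = p :=
  Submodule.mem_span_singleton

theorem Gs_GT {N : Unit × S → Matrix B B ℂ} {Q : Unit × β → Matrix B B ℂ} (hN : ∀ i, N i ∈ Gr d 1)
    (hQ : ∀ i, Q i ∈ Gr d 1) : Gs d N Q (GT d) where
  gr := by
    intro p hp
    obtain ⟨a, rfl⟩ := mem_GT.1 hp
    exact (Gr d 0).smul_mem a Dl_Gr
  br := by
    intro p hp q hq
    obtain ⟨a, rfl⟩ := mem_GT.1 hp
    obtain ⟨b, rfl⟩ := mem_GT.1 hq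
    refine (congrArg (· ∈ GT d) ?_).mp (GT d).zero_mem
    refine Prod.ext ?_ ?_
    · change 0 = (a • Dl d) * (b • Dl d) - (b • Dl d) * (a • Dl d)
      rw [Matrix.smul_mul, Matrix.smul_mul, Matrix.mul_smul, Matrix.mul_smul, smul_comm, sub_self]
    · change 0 = (a • (1 : Matrix Unit Unit ℂ)) * (b • 1) - (b • 1) * (a • 1)
      rw [Matrix.smul_mul, Matrix.smul_mul, Matrix.mul_smul, Matrix.mul_smul, smul_comm, sub_self]
  der := by
    intro δ p hp
    obtain ⟨a, rfl⟩ := mem_GT.1 hp
    refine mem_GT.2 ⟨δ a, ?_⟩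
    refine Prod.ext ?_ ?_
    · change δ a • Dl d = (a • Dl d).map δ
      ext b b'
      unfold Dl
      rw [Matrix.map_apply, Matrix.smul_apply, Matrix.smul_apply, smul_eq_mul, smul_eq_mul, diagonal_apply]
      split_ifs
      · rw [Derivation.leibniz, Derivation.map_natCast, smul_zero, zero_add, smul_eq_mul, mul_comm]
      · rw [mul_zero, mul_zero, map_zero]
    · change δ a • (1 : Matrix Unit Unit ℂ) = (a • (1 : Matrix Unit Unit ℂ)).map δ
      ext b b'
      rw [Matrix.map_apply, Matrix.smul_apply, Matrix.smul_apply, smul_eq_mul, smul_eq_mul,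
        Matrix.one_apply_eq, mul_one, mul_one]
  one := mem_GT.2 ⟨1, one_smul _ _⟩
  inj := by
    intro Y hY
    obtain ⟨a, ha⟩ := mem_GT.1 hY
    have h1 : a • Dl d = Y := congrArg Prod.fst ha
    have h2 : a • (1 : Matrix Unit Unit ℂ) = 0 := congrArg Prod.snd ha
    have h3 := congrFun (congrFun h2 ()) ()
    rw [Matrix.smul_apply, Matrix.one_apply_eq, smul_eq_mul, mul_one, Matrix.zero_apply] at h3
    rw [← h1, h3, zero_smul]
  cN := by
    intro p hp u s
    obtain ⟨a, rfl⟩ := mem_GT.1 hp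
    change (a • Dl d) * N (u, s) - N (u, s) * (a • Dl d) = -∑ b : Unit, (a • (1 : Matrix Unit Unit ℂ)) u b • N (b, s)
    rw [Finset.univ_unique, Finset.sum_singleton, Matrix.smul_apply, Matrix.smul_mul, Matrix.mul_smul, ← smul_sub,
      Dl_Gr_br (hN _), smul_neg, smul_eq_mul]
    have h1 : (1 : Matrix Unit Unit ℂ) u default = 1 := Matrix.one_apply_eq ()
    rw [h1, mul_one]
  cQ := by
    intro p hp u s
    obtain ⟨a, rfl⟩ := mem_GT.1 hp
    change (a • Dl d) * Q (u, s) - Q (u, s) * (a • Dl d) = -∑ b : Unit, (a • (1 : Matrix Unit Unit ℂ)) u b • Q (b, s)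
    rw [Finset.univ_unique, Finset.sum_singleton, Matrix.smul_apply, Matrix.smul_mul, Matrix.mul_smul, ← smul_sub,
      Dl_Gr_br (hQ _), smul_neg, smul_eq_mul]
    have h1 : (1 : Matrix Unit Unit ℂ) u default = 1 := Matrix.one_apply_eq ()
    rw [h1, mul_one]

end G

section baker

variable {R : Type} [DecidableEq R]

/-- Baker: independence of the columns -/
theorem ind_baker {w : ℂ} {θ : R → ℂ} (hw : IsAlgebraic ℚ (Complex.exp w)) (hθ : ∀ k, IsAlgebraic ℚ (Complex.exp (θ k)))
    (hli : LinearIndependent ℚ (Sum.elim (fun _ : Unit => w) θ)) (K : Finset R) :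
    Ind1 (Matrix.of fun _ _ : Unit => w) (cols (Matrix.of fun (_ : Unit) k => θ k) K) := by
  intro c C D hc hC hD h0
  rw [Finset.univ_unique, Finset.sum_singleton, Finset.sum_singleton, Finset.sum_singleton] at h0
  have h1 := Pool.Agent.H297R2.baker_inhom (ι := Unit ⊕ K) (Sum.elim (fun _ : Unit => w) fun k => θ k.1)
    (by
      rintro (_ | k)
      · exact hw
      · exact hθ k.1)
    (by
      have h2 := hli.comp (Sum.map id (fun k : K => k.1)) (by
        rintro (a | a) (b | b) hab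
        · rfl
        · exact absurd hab (by simp)
        · exact absurd hab (by simp)
        · simp only [Sum.map_inr, Sum.inr.injEq] at hab
          rw [Subtype.ext hab])
      have h3 : (Sum.elim (fun _ : Unit => w) θ) ∘ (Sum.map id fun k : K => k.1) =
          Sum.elim (fun _ : Unit => w) fun k : K => θ k.1 := by
        funext k
        rcases k with k | k <;> rfl
      rwa [h3] at h2)
    c hc (Sum.elim (fun _ => C () ()) (fun k => D () k)) (by
      rintro (_ | k)
      · exact hC _ _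
      · exact hD _ _) (by
      rw [Fintype.sum_sum_type]
      simp only [Sum.elim_inl, Sum.elim_inr, Finset.univ_unique, Finset.sum_singleton]
      rw [← add_assoc]
      exact h0)
  constructor
  · ext a b
    exact h1.2 (Sum.inl ())
  · ext a k
    exact h1.2 (Sum.inr k)

end baker

end Pool.Agent.KS6_11
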