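import Pool.Agent.KS6_11.Tate

/-!
# Unipotent variations of mixed Tate objects relative to an arbitrary object
-/

set_option autoImplicit false
set_option linter.unusedSectionVars false
set_option linter.unusedVariables false

open Module Matrix

noncomputable section

namespace Pool.Agent.KS6_11

open Pool.Agent.W245.EB Pool.Agent.TH127.PT Pool.Agent.TH119.DR Pool.Agent.Y123.ST
open Pool.Agent.X306.RL (LL_br derD)
open Pool.Agent.X306.MT Pool.Agent.X306.CV
open Pool.Agent.X306.MZ (InK)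

theorem two_pi_tr : ¬ IsAlgebraic ℚ (2 * Real.pi * Complex.I : ℂ) := by
  intro h
  have h1 := Pool.Agent.H297R2.baker_inhom (ι := Unit) (fun _ => 2 * Real.pi * Complex.I)
    (fun _ => by
      rw [Complex.exp_two_pi_mul_I]
      exact isAlgebraic_one) (by
      rw [linearIndependent_unique_iff]
      exact Complex.two_pi_I_ne_zero) (-(2 * Real.pi * Complex.I)) h.neg (fun _ => 1) (fun _ => isAlgebraic_one) (by
      rw [Finset.univ_unique, Finset.sum_singleton, one_mul, neg_add_cancel])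
  exact one_ne_zero (h1.2 ())

theorem two_pi_sq_tr : ¬ IsAlgebraic ℚ ((2 * Real.pi * Complex.I : ℂ) ^ 2) := by
  intro h
  exact two_pi_tr (h.of_pow (by norm_num))

/-- the change of the index set of the generators -/
theorem nn_unit {B S : Type} [Fintype B] [DecidableEq B] (N : S → Matrix B B ℂ) :
    nn (fun p : Unit × S => N p.2) = nn N := by
  rw [← lieGen_eq, ← lieGen_eq]
  unfold lieGen
  congr 1
  ext U
  constructor
  · rintro ⟨h1, h2⟩
    exact ⟨fun s => h1 ((), s), h2⟩
  · rintro ⟨h1, h2⟩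
    exact ⟨fun p => h1 p.2, h2⟩

theorem nbv_unit {B S : Type} [Fintype B] [DecidableEq B] [Fintype S] [DecidableEq S] (N : S → Matrix B B ℂ)
    (y : Unit × S → ℂ) : nbv (fun p : Unit × S => N p.2) y = ∑ s, y ((), s) • N s := by
  unfold nbv
  rw [Fintype.sum_prod_type, Finset.univ_unique, Finset.sum_singleton]

theorem nbv_unit' {B S : Type} [Fintype B] [DecidableEq B] [Fintype S] [DecidableEq S] (N : Unit × S → Matrix B B ℂ)
    (y : Unit × S → ℂ) : nbv N y = ∑ s, y ((), s) • N ((), s) := by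
  unfold nbv
  rw [Fintype.sum_prod_type, Finset.univ_unique, Finset.sum_singleton]

theorem lam_basis (Lam : Submodule ℚ ℂ) {w : ℂ} (hw : w ≠ 0) (hLam : w ∈ Lam) : ∃ b : Set ℂ, b ⊆ Lam ∧ w ∈ b ∧
    LinearIndependent ℚ (fun x : b => (x : ℂ)) ∧ ∀ z ∈ Lam, ∃ (q : ℚ) (c : {x : ℂ // x ∈ b ∧ x ≠ w} →₀ ℚ),
      z = (q : ℂ) * w + c.sum fun x a => (a : ℂ) * x.1 := by
  obtain ⟨b, hb1, hb2, hb3, hb4⟩ := exists_linearIndepOn_extension (K := ℚ) (v := (id : ℂ → ℂ)) (s := {w})
    (t := (Lam : Set ℂ)) ((linearIndepOn_singleton_iff ℚ).2 hw) (by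
      rintro x rfl
      exact hLam)
  have hwb : w ∈ b := hb2 rfl
  refine ⟨b, hb1, hwb, hb4, fun z hz => ?_⟩
  rw [Set.image_id, Set.image_id] at hb3
  have h1 : z ∈ Submodule.span ℚ b := hb3 hz
  have h2 : b = insert w (Set.range fun x : {x : ℂ // x ∈ b ∧ x ≠ w} => x.1) := by
    ext x
    rw [Set.mem_insert_iff, Set.mem_range]
    constructor
    · intro hx
      by_cases h : x = w
      · exact Or.inl h
      · exact Or.inr ⟨⟨x, hx, h⟩, rfl⟩
    · rintro (rfl | ⟨y, rfl⟩)
      · exact hwb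
      · exact y.2.1
  rw [h2, Submodule.mem_span_insert] at h1
  obtain ⟨q, z', hz', rfl⟩ := h1
  obtain ⟨c, rfl⟩ := Finsupp.mem_span_range_iff_exists_finsupp.1 hz'
  refine ⟨q, c, ?_⟩
  rw [Rat.smul_def]
  congr 1

/-- **Main theorem for mixed Tate objects.** -/
theorem tate_main {m : ℕ} (C₀ : Matrix (Fin m) (Fin m) ℂ) (h₀ : IsUnit C₀) (Lam : Submodule ℚ ℂ)
    (hLam : 2 * Real.pi * Complex.I ∈ Lam) (hLamA : ∀ z ∈ Lam, IsAlgebraic ℚ (Complex.exp z))
    {J S : Type} [DecidableEq J] [Fintype S] [DecidableEq S] (l : J → S → ℂ)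
    (hl : ∀ j s, IsAlgebraic ℚ (Complex.exp (l j s)))
    (hind : ∀ (s : Finset (J × S)) (q : J × S → ℚ), ∑ p ∈ s, (q p : ℂ) * l p.1 p.2 ∈ Lam → ∀ p ∈ s, q p = 0) :
    ∃ E : Finset J, 4 * E.card ≤ m ^ 2 ∧ ∀ K : Finset J, Disjoint K E →
      ∀ (B : Type) [Fintype B] [DecidableEq B] (d : B → ℕ) (C : Matrix B B ℂ), Tri d (2 * Real.pi * Complex.I) C →
      (∀ b b', d b' = d b + 1 → ∃ z ∈ Lam, C b b' = (2 * Real.pi * Complex.I) ^ d b * z) →
      ∀ N : S → Matrix B B ℂ, (∀ s, AlgM (N s)) → Deg1 d N → DefK QB C N →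
      ∀ ell : K → Matrix B B ℂ, (∀ j, ell j ∈ nn N) → (∀ j : K, ell j - ∑ s, l j.1 s • N s ∈ Ge d 2) →
      ∀ T : Set (Matrix (Ix (Fin m) B K) (Ix (Fin m) B K) ℂ), IsSubtorsor QB T → pc d C₀ C ell ∈ T →
      ∀ n : K → Matrix B B ℂ, (∀ j, n j ∈ nn N) → ∀ x ∈ T,
        fromBlocks 1 0 0 (fromBlocks 1 0 0 (blockDiagonal fun j => C * ex d (n j) * C⁻¹)) * x ∈ T := by
  classical
  set w : ℂ := 2 * Real.pi * Complex.I with hwd
  have hw : w ≠ 0 := Complex.two_pi_I_ne_zero
  obtain ⟨b, hb1, hwb, hbli, hb⟩ := lam_basis Lam hw hLam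
  let I : Type := {x : ℂ // x ∈ b ∧ x ≠ w}
  let θ : I ⊕ (J × S) → ℂ := Sum.elim (fun x => x.1) (fun p => l p.1 p.2)
  have hlli : LinearIndependent ℚ (fun p : J × S => l p.1 p.2) := by
    rw [linearIndependent_iff']
    intro s q hq
    refine hind s q ?_
    have h1 : ∑ p ∈ s, (q p : ℂ) * l p.1 p.2 = ∑ p ∈ s, q p • l p.1 p.2 :=
      Finset.sum_congr rfl fun p _ => (Rat.smul_def _ _).symm
    rw [h1, hq]
    exact Lam.zero_mem
  have hsum : LinearIndependent ℚ (Sum.elim (fun x : b => (x : ℂ)) (fun p : J × S => l p.1 p.2)) := by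
    rw [linearIndependent_sum]
    refine ⟨hbli, hlli, ?_⟩
    rw [Submodule.disjoint_def]
    intro x hx1 hx2
    have h1 : x ∈ Lam := by
      have h2 : Submodule.span ℚ (Set.range (Sum.elim (fun x : b => (x : ℂ)) (fun p : J × S => l p.1 p.2) ∘ Sum.inl)) ≤
          Lam := by
        rw [Submodule.span_le]
        rintro _ ⟨y, rfl⟩
        exact hb1 y.2
      exact h2 hx1
    obtain ⟨c, rfl⟩ := Finsupp.mem_span_range_iff_exists_finsupp.1 hx2
    have h2 : c.sum (fun p a => a • (Sum.elim (fun x : b => (x : ℂ)) (fun p : J × S => l p.1 p.2) ∘ Sum.inr) p) =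
        ∑ p ∈ c.support, (c p : ℂ) * l p.1 p.2 := by
      rw [Finsupp.sum]
      exact Finset.sum_congr rfl fun p _ => Rat.smul_def _ _
    rw [h2] at h1 ⊢
    have h3 := hind _ _ h1
    exact Finset.sum_eq_zero fun p hp => by rw [h3 p hp, Rat.cast_zero, zero_mul]
  have hli : LinearIndependent ℚ (Sum.elim (fun _ : Unit => w) θ) := by
    have h1 := hsum.comp (Sum.elim (fun _ : Unit => Sum.inl ⟨w, hwb⟩)
      (Sum.elim (fun x : I => Sum.inl ⟨x.1, x.2.1⟩) Sum.inr)) (by
        rintro (a | a | a) (c | c | c) hac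
        · rfl
        · simp only [Sum.elim_inl, Sum.elim_inr, Sum.inl.injEq, Subtype.mk.injEq] at hac
          exact absurd hac.symm c.2.2
        · simp at hac
        · simp only [Sum.elim_inl, Sum.elim_inr, Sum.inl.injEq, Subtype.mk.injEq] at hac
          exact absurd hac a.2.2
        · simp only [Sum.elim_inl, Sum.elim_inr, Sum.inl.injEq, Subtype.mk.injEq] at hac
          rw [Subtype.ext hac]
        · simp at hac
        · simp at hac
        · simp at hac
        · simp only [Sum.elim_inr, Sum.inr.injEq] at hac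
          rw [hac])
    have h3 : (Sum.elim (fun x : b => (x : ℂ)) (fun p : J × S => l p.1 p.2)) ∘ (Sum.elim
        (fun _ : Unit => Sum.inl ⟨w, hwb⟩) (Sum.elim (fun x : I => Sum.inl ⟨x.1, x.2.1⟩) Sum.inr)) =
        Sum.elim (fun _ : Unit => w) θ := by
      funext k
      rcases k with k | k | k <;> rfl
    rwa [h3] at h1
  have hθA : ∀ k, IsAlgebraic ℚ (Complex.exp (θ k)) := by
    rintro (x | p)
    · exact hLamA _ (hb1 x.2.1)
    · exact hl _ _
  have hPP' : (Matrix.of fun _ _ : Unit => w) * (Matrix.of fun _ _ : Unit => w⁻¹) = 1 := by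
    ext i j
    rw [Matrix.mul_apply, Finset.univ_unique, Finset.sum_singleton]
    change w * w⁻¹ = _
    rw [mul_inv_cancel₀ hw, Matrix.one_apply_eq]
  have hP'P : (Matrix.of fun _ _ : Unit => w⁻¹) * (Matrix.of fun _ _ : Unit => w) = 1 := by
    ext i j
    rw [Matrix.mul_apply, Finset.univ_unique, Finset.sum_singleton]
    change w⁻¹ * w = _
    rw [inv_mul_cancel₀ hw, Matrix.one_apply_eq]
  obtain ⟨X, hXf, hXd, hX⟩ := cap (N := Unit) (R := I ⊕ (J × S)) (B := Fin m) (P := Matrix.of fun _ _ : Unit => w)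
    (P' := Matrix.of fun _ _ : Unit => w⁻¹) (v := Matrix.of fun (_ : Unit) k => θ k) hPP' hP'P two_pi_sq_tr
    ⟨1, isAlgebraic_one, by
      rw [Matrix.det_unique, one_mul, Fintype.card_unique, pow_one]
      rfl⟩ (fun K => ind_baker (by
        rw [hwd, Complex.exp_two_pi_mul_I]
        exact isAlgebraic_one) hθA hli K) C₀ᵀ (C₀⁻¹)ᵀ
  obtain ⟨Es, hEs1, hEs2, hEs3⟩ := exists_sel X {k | ∃ p, k = Sum.inr p}
  let fE : I ⊕ (J × S) → Finset J := Sum.elim (fun _ => ∅) (fun p => {p.1})
  refine ⟨Es.biUnion fE, ?_, ?_⟩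
  · have h1 : (Es.biUnion fE).card ≤ Es.card * 1 := Finset.card_biUnion_le_card_mul _ _ _ (by
      rintro (x | p) _
      · exact Nat.zero_le 1
      · exact (Finset.card_singleton p.1).le)
    rw [Fintype.card_unique, one_mul, Fintype.card_fin] at hXd
    omega
  intro K hK B _ _ d C hC hC1 N hNA hN hB ell hell hell1 T hT hP n hn x hx
  -- the coordinates of the extensions
  have hlam : ∀ p : B × B, ∃ z ∈ Lam, d p.2 = d p.1 + 1 → C p.1 p.2 = w ^ d p.1 * z := by
    intro p
    by_cases h : d p.2 = d p.1 + 1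
    · obtain ⟨z, hz1, hz2⟩ := hC1 _ _ h
      exact ⟨z, hz1, fun _ => hz2⟩
    · exact ⟨0, Lam.zero_mem, fun h' => absurd h' h⟩
  choose lam hlam1 hlam2 using hlam
  choose q0 c hc using fun p : B × B => hb _ (hlam1 p)
  let KI : Finset I := Finset.univ.biUnion fun p : B × B => (c p).support
  have hcs : ∀ p : B × B, (c p).sum (fun x a => (a : ℂ) * x.1) = ∑ x : KI, (c p x.1 : ℂ) * x.1.1 := by
    intro p
    rw [Finset.sum_coe_sort KI (fun x => (c p x : ℂ) * x.1), Finsupp.sum]
    refine Finset.sum_subset (fun x hx => Finset.mem_biUnion.2 ⟨p, Finset.mem_univ _, hx⟩) fun x _ hx => ?_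
    rw [Finsupp.notMem_support_iff.1 hx, Rat.cast_zero, zero_mul]
  let K' : Finset (I ⊕ (J × S)) := KI.disjSum (K ×ˢ Finset.univ)
  let i1 : KI → K' := fun x => ⟨Sum.inl x.1, Finset.inl_mem_disjSum.2 x.2⟩
  let i2 : K → S → K' := fun j s => ⟨Sum.inr (j.1, s), Finset.inr_mem_disjSum.2
    (Finset.mem_product.2 ⟨j.2, Finset.mem_univ _⟩)⟩
  let Q0 : Matrix B B ℂ := Matrix.of fun b b' => if d b' = d b + 1 then (q0 (b, b') : ℂ) else 0
  let Q : Unit × KI → Matrix B B ℂ := fun p => Matrix.of fun b b' =>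
    if d b' = d b + 1 then (c (b, b') p.2.1 : ℂ) else 0
  have hQ0 : Q0 ∈ Gr d 1 := fun b b' h => if_neg h
  have hQ : ∀ i, Q i ∈ Gr d 1 := fun i b b' h => if_neg h
  have hQA : ∀ i, AlgM (Q i) := by
    intro i b b'
    change IsAlgebraic ℚ (if d b' = d b + 1 then (c (b, b') i.2.1 : ℂ) else 0)
    split_ifs
    · exact isAlgebraic_algebraMap (c (b, b') i.2.1)
    · exact isAlgebraic_zero
  let Lm : Matrix B B ℂ := w • Q0 + ∑ x : KI, (x.1.1 : ℂ) • Q ((), x)
  have hLm : Lm ∈ Gr d 1 := (Gr d 1).add_mem ((Gr d 1).smul_mem _ hQ0)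
    ((Gr d 1).sum_mem fun x _ => (Gr d 1).smul_mem _ (hQ _))
  have hLm1 : ∀ b b', d b' = d b + 1 → C b b' = w ^ d b * Lm b b' := by
    intro b b' h
    have h1 : Lm b b' = lam (b, b') := by
      rw [hc (b, b'), hcs]
      change (w • Q0 + ∑ x : KI, (x.1.1 : ℂ) • Q ((), x)) b b' = _
      rw [Matrix.add_apply, Matrix.smul_apply, Matrix.sum_apply, smul_eq_mul]
      have h2 : Q0 b b' = (q0 (b, b') : ℂ) := if_pos h
      rw [h2, mul_comm w]
      congr 1
      refine Finset.sum_congr rfl fun x _ => ?_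
      have h3 : Q ((), x) b b' = (c (b, b') x.1 : ℂ) := if_pos h
      rw [Matrix.smul_apply, h3, smul_eq_mul, mul_comm]
    rw [h1]
    exact hlam2 (b, b') h
  let N' : Unit × S → Matrix B B ℂ := fun p => N p.2
  have hnn : nn N' = nn N := nn_unit N
  have hH : Hy T d N' Q (GT d) i1 i2 C₀ C ell (Matrix.of fun _ _ : Unit => w) (Matrix.of fun _ _ : Unit => w⁻¹)
      (cols (Matrix.of fun (_ : Unit) k => θ k) K') :=
    { hT := hT
      hC₀ := h₀
      hC := Tri.bi hC
      hN := fun i => hN i.2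
      aN := fun i => hNA i.2
      aQ := hQA
      hB := by
        intro M hM
        have h1 : M ∈ nB C N := by
          change C⁻¹ * M * C ∈ nn N
          rw [← hnn]
          exact hM
        refine Submodule.span_mono ?_ (hB M h1)
        rintro M' ⟨h2, h3⟩
        refine ⟨?_, h3⟩
        change C⁻¹ * M' * C ∈ nn N'
        rw [hnn]
        exact h2
      hG := Gs_GT (fun i b b' h => hN i.2 b b' h) hQ
      hell := fun j => by
        rw [hnn]
        exact hell j
      hell1 := fun j => by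
        rw [nbv_unit]
        exact hell1 j
      hP := hP
      log0 := by
        intro δ
        rw [(Tri_log hC hLm hLm1 δ).1]
        refine mem_GT.2 ⟨δ w / w, Prod.ext rfl ?_⟩
        ext u u'
        change (δ w / w) * (1 : Matrix Unit Unit ℂ) u u' = ((Matrix.of fun _ _ : Unit => w).map δ *
          (Matrix.of fun _ _ : Unit => w⁻¹)) u' u
        rw [Matrix.one_apply_eq, mul_one, Matrix.mul_apply, Finset.univ_unique, Finset.sum_singleton,
          Matrix.map_apply, div_eq_mul_inv]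
        rfl
      log1 := by
        intro δ
        rw [(Tri_log hC hLm hLm1 δ).2]
        have hδQ0 : Q0.map δ = 0 := by
          ext b b'
          change δ (if d b' = d b + 1 then (q0 (b, b') : ℂ) else 0) = 0
          split_ifs
          · exact deriv_alg δ (isAlgebraic_algebraMap (q0 (b, b')))
          · exact map_zero δ
        have hδQ : ∀ i, (Q i).map δ = 0 := by
          intro i
          ext b b'
          exact deriv_alg δ (hQA i b b')
        have hsm : ∀ (a : ℂ) (x : Matrix B B ℂ), (a • x).map δ = δ a • x + a • x.map δ := by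
          intro a x
          ext b b'
          simp only [Matrix.map_apply, Matrix.smul_apply, Matrix.add_apply, smul_eq_mul, Derivation.leibniz]
          ring
        have h1 : Lm.map δ = δ w • Q0 + ∑ x : KI, δ (x.1.1 : ℂ) • Q ((), x) := by
          change (w • Q0 + ∑ x : KI, (x.1.1 : ℂ) • Q ((), x)).map δ = _
          rw [map_add_D, map_sum_D, hsm, hδQ0, smul_zero, add_zero]
          congr 1
          refine Finset.sum_congr rfl fun x _ => ?_
          rw [hsm, hδQ, smul_zero, add_zero]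
        rw [h1, nbv_unit']
        change δ w • Q0 + ∑ x : KI, δ (x.1.1 : ℂ) • Q ((), x) - (δ w / w) • (w • Q0 + ∑ x : KI, (x.1.1 : ℂ) • Q ((), x)) =
          _
        rw [smul_add, smul_smul, div_mul_cancel₀ _ hw, Finset.smul_sum, add_sub_add_left_eq_sub,
          ← Finset.sum_sub_distrib]
        refine Finset.sum_congr rfl fun x _ => ?_
        rw [smul_smul, ← sub_smul]
        congr 1
        rw [Matrix.sub_apply, Matrix.mul_apply, Finset.univ_unique, Finset.sum_singleton, Matrix.mul_apply,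
          Finset.univ_unique, Finset.sum_singleton, Matrix.map_apply, Matrix.map_apply, div_eq_mul_inv]
        rfl }
  obtain ⟨hone, hall⟩ := hX K' _ hH.gd
  refine hH.main (fun r s r' s' h => ?_) (fun y r s h => ?_) hone (fun y hy => hall y fun a z hz hz0 => ?_)
    (fun j => by
      rw [hnn]
      exact hn j) hx
  · have h1 := congrArg Subtype.val h
    change (Sum.inr (r.1, s) : I ⊕ (J × S)) = Sum.inr (r'.1, s') at h1
    rw [Sum.inr.injEq, Prod.mk.injEq] at h1
    exact ⟨Subtype.ext h1.1, h1.2⟩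
  · have h1 := congrArg Subtype.val h
    exact absurd h1 (by
      change ¬ (Sum.inl y.1 : I ⊕ (J × S)) = Sum.inr (r.1, s)
      simp)
  · have h1 := hEs3 z hz (by
      intro k hk
      refine hz0 k fun hk' => ?_
      obtain ⟨p, rfl⟩ := hEs1 k hk
      have h2 : p.1 ∈ K := (Finset.mem_product.1 (Finset.inr_mem_disjSum.1 hk')).1
      have h3 : p.1 ∈ Es.biUnion fE := Finset.mem_biUnion.2 ⟨_, hk, Finset.mem_singleton_self _⟩
      exact Finset.disjoint_left.1 hK h2 h3)
    refine Finset.sum_eq_zero fun k _ => ?_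
    obtain ⟨k, hk⟩ := k
    rcases k with k | p
    · have h2 := hy a ⟨k, Finset.inl_mem_disjSum.1 hk⟩
      have h3 : y a ⟨Sum.inl k, hk⟩ = 0 := h2
      rw [h3, mul_zero]
    · rw [h1 _ ⟨p, rfl⟩, zero_mul]

end Pool.Agent.KS6_11
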